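import Mathlib

/-!
Module M4 of the project MP_c6f924_an (helper50): the final pairing inequality
(Fourier expansion at the exterior map, Cauchy-Schwarz).
-/

open Complex Topology Filter Metric MeasureTheory Set

namespace Pool.Agent.T6.H45.LC

/-- distance of `k` from `D`, as a natural number -/
def ds (D k : ℕ) : ℕ := (k - D) + (D - k)

lemma ds_cast (D k : ℕ) : ((ds D k : ℕ) : ℝ) = |(D : ℝ) - k| := by
  unfold ds
  rcases le_total k D with h | h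
  · have h1 : k - D = 0 := by omega
    rw [h1, zero_add, Nat.cast_sub h, abs_of_nonneg]
    have : (k : ℝ) ≤ D := by exact_mod_cast h
    linarith
  · have h1 : D - k = 0 := by omega
    rw [h1, add_zero, Nat.cast_sub h, abs_sub_comm, abs_of_nonneg]
    have : (D : ℝ) ≤ k := by exact_mod_cast h
    linarith

lemma ds_pos {D k : ℕ} (h : k ≠ D) : 0 < ds D k := by
  unfold ds; omega

section Fam

variable {ι : Type*} [Fintype ι]

/-- the averaged Laurent expansion -/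
lemma fam {D : ℕ} {h : ℕ → ℂ} {ev : ℂ → ℂ}
    (hsum : ∀ x ∈ ball (0 : ℂ) 1, x ≠ 0 → HasSum (fun k => h k * x ^ k) (x ^ D * ev x))
    (x : ι → ℂ) (hx : ∀ v, x v ∈ ball (0 : ℂ) 1) (hx0 : ∀ v, x v ≠ 0) (N : ℂ) :
    HasSum (fun k => h k * ((∑ v, x v ^ k * ((x v)⁻¹) ^ D) / N)) ((∑ v, ev (x v)) / N) := by
  have h1 : ∀ v ∈ (Finset.univ : Finset ι),
      HasSum (fun k => h k * (x v ^ k * ((x v)⁻¹) ^ D)) (ev (x v)) := by
    intro v _
    have h2 := (hsum (x v) (hx v) (hx0 v)).mul_right (((x v)⁻¹) ^ D)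
    have h3 : x v ^ D * ev (x v) * ((x v)⁻¹) ^ D = ev (x v) := by
      have : x v ^ D * ((x v)⁻¹) ^ D = 1 := by
        rw [← mul_pow, mul_inv_cancel₀ (hx0 v), one_pow]
      calc x v ^ D * ev (x v) * ((x v)⁻¹) ^ D = ev (x v) * (x v ^ D * ((x v)⁻¹) ^ D) := by ring
        _ = ev (x v) := by rw [this, mul_one]
    rw [h3] at h2
    have h4 : (fun k => h k * x v ^ k * ((x v)⁻¹) ^ D) =
        (fun k => h k * (x v ^ k * ((x v)⁻¹) ^ D)) := by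
      funext k; ring
    rw [h4] at h2
    exact h2
  have h5 := (hasSum_sum h1).div_const N
  have h6 : (fun k => (∑ v, h k * (x v ^ k * ((x v)⁻¹) ^ D)) / N) =
      (fun k => h k * ((∑ v, x v ^ k * ((x v)⁻¹) ^ D) / N)) := by
    funext k
    rw [← Finset.mul_sum, mul_div_assoc]
  rw [h6] at h5
  exact h5

/-- coefficient bound -/
lemma coef_le {D : ℕ} (x : ι → ℂ) (hx0 : ∀ v, x v ≠ 0)
    {ρ : ℝ} (hρ0 : 0 < ρ) (hρ1 : ρ < 1) (hρ : ∀ v, ρ < ‖x v‖) (hx : ∀ v, ‖x v‖ < 1)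
    {N : ℝ} (hN : N = Fintype.card ι) (hN0 : 0 < N) (k : ℕ) (hk : k ≠ D) :
    ‖(∑ v, x v ^ k * ((x v)⁻¹) ^ D) / (N : ℂ)‖ ≤
      ‖∑ v, x v ^ (ds D k)‖ / N + (if k < D then (ρ⁻¹ ^ D - ρ ^ D) else 0) := by
  have hNn : ‖(N : ℂ)‖ = N := by
    rw [Complex.norm_real, Real.norm_eq_abs, abs_of_pos hN0]
  rw [norm_div, hNn]
  rcases lt_or_gt_of_ne hk with h | h
  · rw [if_pos h]
    obtain ⟨p, rfl⟩ : ∃ p, D = k + p := ⟨D - k, by omega⟩
    have hds : ds (k + p) k = p := by unfold ds; omega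
    rw [hds]
    have h1 : ∀ v, x v ^ k * ((x v)⁻¹) ^ (k + p) = ((x v)⁻¹) ^ p := by
      intro v
      rw [pow_add, ← mul_assoc, ← mul_pow, mul_inv_cancel₀ (hx0 v), one_pow, one_mul]
    simp_rw [h1]
    set e : ℝ := ρ⁻¹ ^ (k + p) - ρ ^ (k + p) with he
    have h2 : ∀ v, ‖((x v)⁻¹) ^ p - (starRingEnd ℂ (x v)) ^ p‖ ≤ e := by
      intro v
      have hr0 : 0 < ‖x v‖ := norm_pos_iff.2 (hx0 v)
      have h3 : ((x v)⁻¹) ^ p - (starRingEnd ℂ (x v)) ^ p =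
          ((x v)⁻¹) ^ p * ((1 - ‖x v‖ ^ (2 * p) : ℝ) : ℂ) := by
        have h4 : x v * (starRingEnd ℂ (x v)) = ((‖x v‖ ^ 2 : ℝ) : ℂ) := by
          rw [Complex.mul_conj, Complex.normSq_eq_norm_sq]
        have h5 : ((‖x v‖ ^ (2 * p) : ℝ) : ℂ) = (x v) ^ p * (starRingEnd ℂ (x v)) ^ p := by
          rw [← mul_pow, h4, pow_mul]; push_cast; ring
        rw [Complex.ofReal_sub, h5, mul_sub, Complex.ofReal_one, mul_one, ← mul_assoc, ← mul_pow,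
          inv_mul_cancel₀ (hx0 v), one_pow, one_mul]
      rw [h3, norm_mul, norm_pow, norm_inv, Complex.norm_real, Real.norm_eq_abs]
      have h6 : (0 : ℝ) ≤ 1 - ‖x v‖ ^ (2 * p) := by
        have := pow_le_one₀ (n := 2 * p) hr0.le (hx v).le
        linarith
      rw [abs_of_nonneg h6]
      have h7 : ‖x v‖⁻¹ ^ p * (1 - ‖x v‖ ^ (2 * p)) = ‖x v‖⁻¹ ^ p - ‖x v‖ ^ p := by
        have : ‖x v‖⁻¹ ^ p * ‖x v‖ ^ (2 * p) = ‖x v‖ ^ p := by
          rw [two_mul, pow_add, ← mul_assoc, ← mul_pow, inv_mul_cancel₀ hr0.ne', one_pow, one_mul]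
        rw [mul_sub, this, mul_one]
      rw [h7, he]
      have h8 : ‖x v‖⁻¹ ^ p ≤ ρ⁻¹ ^ (k + p) := by
        have a1 : ‖x v‖⁻¹ ^ p ≤ ρ⁻¹ ^ p := by
          apply pow_le_pow_left₀ (inv_nonneg.2 hr0.le)
          exact inv_anti₀ hρ0 (hρ v).le
        have a2 : ρ⁻¹ ^ p ≤ ρ⁻¹ ^ (k + p) :=
          pow_le_pow_right₀ (by rw [one_le_inv₀ hρ0]; exact hρ1.le) (by omega)
        exact a1.trans a2
      have h9 : ρ ^ (k + p) ≤ ‖x v‖ ^ p := by
        have a1 : ρ ^ (k + p) ≤ ρ ^ p := pow_le_pow_of_le_one hρ0.le hρ1.le (by omega)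
        have a2 : ρ ^ p ≤ ‖x v‖ ^ p := pow_le_pow_left₀ hρ0.le (hρ v).le _
        exact a1.trans a2
      linarith
    have h3 : (∑ v, ((x v)⁻¹) ^ p) = (starRingEnd ℂ) (∑ v, (x v) ^ p) +
        ∑ v, (((x v)⁻¹) ^ p - (starRingEnd ℂ (x v)) ^ p) := by
      rw [map_sum, Finset.sum_sub_distrib]
      simp only [map_pow]
      ring
    have h4 : ‖∑ v, ((x v)⁻¹) ^ p‖ ≤ ‖∑ v, (x v) ^ p‖ + N * e := by
      rw [h3]
      refine (norm_add_le _ _).trans ?_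
      have h5 : ‖(starRingEnd ℂ) (∑ v, (x v) ^ p)‖ = ‖∑ v, (x v) ^ p‖ := RCLike.norm_conj _
      rw [h5]
      have h6 : ‖∑ v, (((x v)⁻¹) ^ p - (starRingEnd ℂ (x v)) ^ p)‖ ≤ N * e := by
        refine (norm_sum_le_of_le _ (fun v _ => h2 v)).trans ?_
        rw [Finset.sum_const, Finset.card_univ, nsmul_eq_mul, hN]
      linarith
    calc ‖∑ v, ((x v)⁻¹) ^ p‖ / N ≤ (‖∑ v, (x v) ^ p‖ + N * e) / N := by gcongr
      _ = ‖∑ v, (x v) ^ p‖ / N + e := by field_simp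
  · rw [if_neg (by omega), add_zero]
    obtain ⟨p, rfl⟩ : ∃ p, k = D + p := ⟨k - D, by omega⟩
    have hds : ds D (D + p) = p := by unfold ds; omega
    rw [hds]
    have h1 : ∀ v, x v ^ (D + p) * ((x v)⁻¹) ^ D = (x v) ^ p := by
      intro v
      have : x v ^ D * ((x v)⁻¹) ^ D = 1 := by
        rw [← mul_pow, mul_inv_cancel₀ (hx0 v), one_pow]
      rw [pow_add, mul_assoc, mul_comm (x v ^ p), ← mul_assoc, this, one_mul]
    simp_rw [h1]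
    exact le_rfl

lemma coef_D {D : ℕ} (x : ι → ℂ) (hx0 : ∀ v, x v ≠ 0)
    {N : ℝ} (hN : N = Fintype.card ι) (hN0 : 0 < N) :
    (∑ v, x v ^ D * ((x v)⁻¹) ^ D) / (N : ℂ) = 1 := by
  have h1 : ∀ v, x v ^ D * ((x v)⁻¹) ^ D = 1 := by
    intro v
    rw [← mul_pow, mul_inv_cancel₀ (hx0 v), one_pow]
  simp_rw [h1]
  rw [Finset.sum_const, Finset.card_univ, nsmul_eq_mul, mul_one, hN]
  have : ((Fintype.card ι : ℕ) : ℂ) ≠ 0 := by
    have h2 : ((Fintype.card ι : ℕ) : ℝ) ≠ 0 := by rw [← hN]; exact hN0.ne'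
    exact_mod_cast h2
  push_cast
  exact div_self this

end Fam

/-- each distance occurs at most twice -/
lemma twice {D : ℕ} {Z : ℕ → ℝ} (hZ : ∀ p, 0 ≤ Z p) {B : ℝ}
    (hB : ∀ N : ℕ, ∑ p ∈ Finset.Icc 1 N, Z p ≤ B) (F : Finset ℕ) (hF : D ∉ F) :
    ∑ k ∈ F, Z (ds D k) ≤ 2 * B := by
  classical
  have h1 : ∑ k ∈ F, Z (ds D k) = ∑ k ∈ F.filter (fun k => k < D), Z (ds D k) +
      ∑ k ∈ F.filter (fun k => ¬ k < D), Z (ds D k) := by
    rw [Finset.sum_filter_add_sum_filter_not]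
  have h2 : ∑ k ∈ F.filter (fun k => k < D), Z (ds D k) ≤ B := by
    have : ∑ k ∈ F.filter (fun k => k < D), Z (ds D k) =
        ∑ p ∈ (F.filter (fun k => k < D)).image (ds D), Z p := by
      rw [Finset.sum_image]
      intro a ha b hb hab
      simp only [Finset.coe_filter, Set.mem_ofPred_eq] at ha hb
      unfold ds at hab
      omega
    rw [this]
    refine le_trans (Finset.sum_le_sum_of_subset_of_nonneg (t := Finset.Icc 1 D) ?_ ?_) (hB D)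
    · intro p hp
      rw [Finset.mem_image] at hp
      obtain ⟨k, hk, rfl⟩ := hp
      rw [Finset.mem_filter] at hk
      rw [Finset.mem_Icc]
      unfold ds
      omega
    · intro p _ _; exact hZ p
  have h3 : ∑ k ∈ F.filter (fun k => ¬ k < D), Z (ds D k) ≤ B := by
    have : ∑ k ∈ F.filter (fun k => ¬ k < D), Z (ds D k) =
        ∑ p ∈ (F.filter (fun k => ¬ k < D)).image (ds D), Z p := by
      rw [Finset.sum_image]
      intro a ha b hb hab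
      simp only [Finset.coe_filter, Set.mem_ofPred_eq] at ha hb
      unfold ds at hab
      omega
    rw [this]
    refine le_trans (Finset.sum_le_sum_of_subset_of_nonneg
      (t := Finset.Icc 1 (F.sup id)) ?_ ?_) (hB (F.sup id))
    · intro p hp
      rw [Finset.mem_image] at hp
      obtain ⟨k, hk, rfl⟩ := hp
      rw [Finset.mem_filter] at hk
      have hkD : k ≠ D := by
        rintro rfl; exact hF hk.1
      have hks : k ≤ F.sup id := Finset.le_sup (f := id) hk.1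
      rw [Finset.mem_Icc]
      unfold ds
      omega
    · intro p _ _; exact hZ p
  linarith

/-- the finite estimate -/
lemma finite_est {D : ℕ} {h : ℕ → ℂ} {B η ε M : ℝ} (hB : 0 < B) (hη : 0 ≤ η) (hε : 0 ≤ ε)
    (near : ∀ k : ℕ, k ≠ D → |(D : ℝ) - k| ≤ M → |(D : ℝ) - k| * ‖h k‖ ≤ η)
    (far : ∀ F : Finset ℕ, (∀ k ∈ F, M < |(D : ℝ) - k|) →
      ∑ k ∈ F, |(D : ℝ) - k| * ‖h k‖ ^ 2 ≤ ε ^ 2)
    {X Y : ℕ → ℝ} (hX0 : ∀ p, 0 ≤ X p) (hY0 : ∀ p, 0 ≤ Y p) (hX1 : ∀ p, X p ≤ 1)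
    (hY1 : ∀ p, Y p ≤ 1)
    (hBX : ∀ N : ℕ, ∑ p ∈ Finset.Icc 1 N, X p / p ≤ B)
    (hBY : ∀ N : ℕ, ∑ p ∈ Finset.Icc 1 N, Y p / p ≤ B) (F : Finset ℕ) (hF : D ∉ F) :
    ∑ k ∈ F, ‖h k‖ * (X (ds D k) + Y (ds D k)) ≤ 4 * η * B + ε * √(8 * B) := by
  classical
  have hBZ : ∀ N : ℕ, ∑ p ∈ Finset.Icc 1 N, (X p + Y p) / p ≤ 2 * B := by
    intro N
    have : ∑ p ∈ Finset.Icc 1 N, (X p + Y p) / p =
        ∑ p ∈ Finset.Icc 1 N, X p / p + ∑ p ∈ Finset.Icc 1 N, Y p / p := by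
      rw [← Finset.sum_add_distrib]
      exact Finset.sum_congr rfl (fun p _ => add_div _ _ _)
    rw [this]
    linarith [hBX N, hBY N]
  have hZ0 : ∀ p : ℕ, 0 ≤ (X p + Y p) / p := by
    intro p
    have := hX0 p
    have := hY0 p
    positivity
  set Fn := F.filter (fun k : ℕ => |(D : ℝ) - k| ≤ M) with hFn
  set Ff := F.filter (fun k : ℕ => ¬ |(D : ℝ) - k| ≤ M) with hFf
  have hsplit : ∑ k ∈ F, ‖h k‖ * (X (ds D k) + Y (ds D k)) =
      ∑ k ∈ Fn, ‖h k‖ * (X (ds D k) + Y (ds D k)) +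
      ∑ k ∈ Ff, ‖h k‖ * (X (ds D k) + Y (ds D k)) := by
    rw [hFn, hFf, Finset.sum_filter_add_sum_filter_not]
  have hDn : D ∉ Fn := fun h => hF (Finset.mem_filter.1 h).1
  have hDf : D ∉ Ff := fun h => hF (Finset.mem_filter.1 h).1
  -- near part
  have hnear : ∑ k ∈ Fn, ‖h k‖ * (X (ds D k) + Y (ds D k)) ≤ 4 * η * B := by
    have h1 : ∀ k ∈ Fn, ‖h k‖ * (X (ds D k) + Y (ds D k)) ≤
        η * ((X (ds D k) + Y (ds D k)) / (ds D k : ℕ)) := by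
      intro k hk
      rw [hFn, Finset.mem_filter] at hk
      have hkD : k ≠ D := by rintro rfl; exact hF hk.1
      have hp := ds_pos hkD
      have hp' : (0 : ℝ) < (ds D k : ℕ) := by exact_mod_cast hp
      have h2 := near k hkD hk.2
      rw [← ds_cast] at h2
      have h3 : ‖h k‖ ≤ η / (ds D k : ℕ) := by
        rw [le_div_iff₀ hp']; linarith
      calc ‖h k‖ * (X (ds D k) + Y (ds D k)) ≤ η / (ds D k : ℕ) * (X (ds D k) + Y (ds D k)) :=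
            mul_le_mul_of_nonneg_right h3 (add_nonneg (hX0 _) (hY0 _))
        _ = η * ((X (ds D k) + Y (ds D k)) / (ds D k : ℕ)) := by ring
    calc ∑ k ∈ Fn, ‖h k‖ * (X (ds D k) + Y (ds D k))
        ≤ ∑ k ∈ Fn, η * ((X (ds D k) + Y (ds D k)) / (ds D k : ℕ)) := Finset.sum_le_sum h1
      _ = η * ∑ k ∈ Fn, ((X (ds D k) + Y (ds D k)) / (ds D k : ℕ)) := by rw [Finset.mul_sum]
      _ ≤ η * (2 * (2 * B)) :=
          mul_le_mul_of_nonneg_left (twice (Z := fun p : ℕ => (X p + Y p) / p) hZ0 hBZ Fn hDn) hη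
      _ = 4 * η * B := by ring
  -- far part
  have hfar : ∑ k ∈ Ff, ‖h k‖ * (X (ds D k) + Y (ds D k)) ≤ ε * √(8 * B) := by
    have hfp : ∀ k ∈ Ff, (0 : ℝ) < (ds D k : ℕ) := by
      intro k hk
      have hkD : k ≠ D := by rintro rfl; exact hDf hk
      exact_mod_cast ds_pos hkD
    have h1 : ∀ k ∈ Ff, ‖h k‖ * (X (ds D k) + Y (ds D k)) =
        (√(ds D k : ℕ) * ‖h k‖) * ((X (ds D k) + Y (ds D k)) / √(ds D k : ℕ)) := by
      intro k hk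
      have := Real.sqrt_pos.2 (hfp k hk)
      field_simp
    rw [Finset.sum_congr rfl h1]
    refine (Real.sum_mul_le_sqrt_mul_sqrt Ff _ _).trans ?_
    have h2 : √(∑ k ∈ Ff, (√(ds D k : ℕ) * ‖h k‖) ^ 2) ≤ ε := by
      rw [Real.sqrt_le_left hε]
      have h3 := far Ff (fun k hk => by
        rw [hFf, Finset.mem_filter] at hk
        exact not_le.1 hk.2)
      refine le_trans (le_of_eq (Finset.sum_congr rfl ?_)) h3
      intro k hk
      rw [mul_pow, Real.sq_sqrt (hfp k hk).le, ds_cast]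
    have h4 : √(∑ k ∈ Ff, ((X (ds D k) + Y (ds D k)) / √(ds D k : ℕ)) ^ 2) ≤ √(8 * B) := by
      apply Real.sqrt_le_sqrt
      have h5 : ∀ k ∈ Ff, ((X (ds D k) + Y (ds D k)) / √(ds D k : ℕ)) ^ 2 ≤
          2 * ((X (ds D k) + Y (ds D k)) / (ds D k : ℕ)) := by
        intro k hk
        rw [div_pow, Real.sq_sqrt (hfp k hk).le, ← mul_div_assoc]
        apply div_le_div_of_nonneg_right _ (hfp k hk).le
        have a1 := hX0 (ds D k)
        have a2 := hY0 (ds D k)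
        have a3 := hX1 (ds D k)
        have a4 := hY1 (ds D k)
        nlinarith
      calc ∑ k ∈ Ff, ((X (ds D k) + Y (ds D k)) / √(ds D k : ℕ)) ^ 2
          ≤ ∑ k ∈ Ff, 2 * ((X (ds D k) + Y (ds D k)) / (ds D k : ℕ)) := Finset.sum_le_sum h5
        _ = 2 * ∑ k ∈ Ff, ((X (ds D k) + Y (ds D k)) / (ds D k : ℕ)) := by rw [Finset.mul_sum]
        _ ≤ 2 * (2 * (2 * B)) :=
            mul_le_mul_of_nonneg_left
              (twice (Z := fun p : ℕ => (X p + Y p) / p) hZ0 hBZ Ff hDf) (by norm_num)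
        _ = 8 * B := by ring
    exact mul_le_mul h2 h4 (Real.sqrt_nonneg _) hε
  rw [hsplit]
  linarith

theorem pairing {D : ℕ} {h : ℕ → ℂ} {ev : ℂ → ℂ}
    (hsum : ∀ x ∈ ball (0 : ℂ) 1, x ≠ 0 → HasSum (fun k => h k * x ^ k) (x ^ D * ev x))
    {B η ε M γ : ℝ} (hB : 0 < B) (hη : 0 ≤ η) (hε : 0 ≤ ε)
    (near : ∀ k : ℕ, k ≠ D → |(D : ℝ) - k| ≤ M → |(D : ℝ) - k| * ‖h k‖ ≤ η)
    (far : ∀ F : Finset ℕ, (∀ k ∈ F, M < |(D : ℝ) - k|) →
      ∑ k ∈ F, |(D : ℝ) - k| * ‖h k‖ ^ 2 ≤ ε ^ 2)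
    (x y : (l : ℕ) → List.Vector Bool l → ℂ)
    (hx : ∀ l v, x l v ∈ ball (0 : ℂ) 1) (hy : ∀ l v, y l v ∈ ball (0 : ℂ) 1)
    (hx1 : ∀ ρ : ℝ, ρ < 1 → ∀ᶠ l in atTop, ∀ v, ρ < ‖x l v‖)
    (hy1 : ∀ ρ : ℝ, ρ < 1 → ∀ᶠ l in atTop, ∀ v, ρ < ‖y l v‖)
    (hBx : ∀ l N : ℕ, ∑ p ∈ Finset.Icc 1 N, ‖∑ v, x l v ^ p‖ / ((2 : ℝ) ^ l * p) ≤ B)
    (hBy : ∀ l N : ℕ, ∑ p ∈ Finset.Icc 1 N, ‖∑ v, y l v ^ p‖ / ((2 : ℝ) ^ l * p) ≤ B)
    (hγ : ∀ᶠ l in atTop, γ ≤ ‖(∑ v, ev (x l v)) / 2 ^ l - (∑ v, ev (y l v)) / 2 ^ l‖) :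
    γ ≤ 4 * η * B + ε * √(8 * B) := by
  classical
  refine le_of_forall_pos_le_add (fun δ hδ => ?_)
  set S : ℝ := ∑ k ∈ Finset.range D, ‖h k‖ with hS
  have hS0 : 0 ≤ S := Finset.sum_nonneg (fun k _ => norm_nonneg _)
  -- choose ρ
  obtain ⟨ρ, hρ0, hρ1, hρe⟩ : ∃ ρ : ℝ, 0 < ρ ∧ ρ < 1 ∧ S * (2 * (ρ⁻¹ ^ D - ρ ^ D)) ≤ δ := by
    have hc : ContinuousAt (fun ρ : ℝ => S * (2 * (ρ⁻¹ ^ D - ρ ^ D))) 1 := by
      have : ContinuousAt (fun ρ : ℝ => ρ⁻¹) 1 := continuousAt_inv₀ one_ne_zero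
      fun_prop
    have h0 : S * (2 * ((1 : ℝ)⁻¹ ^ D - 1 ^ D)) = 0 := by simp
    have h1 : ∀ᶠ ρ in 𝓝 (1 : ℝ), S * (2 * (ρ⁻¹ ^ D - ρ ^ D)) < δ := by
      have hc' : Tendsto (fun ρ : ℝ => S * (2 * (ρ⁻¹ ^ D - ρ ^ D))) (𝓝 1)
          (𝓝 (S * (2 * ((1 : ℝ)⁻¹ ^ D - 1 ^ D)))) := hc
      rw [h0] at hc'
      exact hc'.eventually (eventually_lt_nhds hδ)
    have h2 : ∀ᶠ ρ in 𝓝[<] (1 : ℝ), S * (2 * (ρ⁻¹ ^ D - ρ ^ D)) < δ :=
      nhdsWithin_le_nhds h1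
    have h3 : ∀ᶠ ρ in 𝓝[<] (1 : ℝ), 0 < ρ :=
      nhdsWithin_le_nhds (eventually_gt_nhds one_pos)
    have h4 : ∀ᶠ ρ in 𝓝[<] (1 : ℝ), ρ < 1 := eventually_mem_nhdsWithin
    obtain ⟨ρ, a, b, c⟩ := (h2.and (h3.and h4)).exists
    exact ⟨ρ, b, c, a.le⟩
  obtain ⟨l, hl1, hl2, hl3⟩ := ((hx1 ρ hρ1).and ((hy1 ρ hρ1).and hγ)).exists
  have hx0 : ∀ v, x l v ≠ 0 := fun v => norm_pos_iff.1 (hρ0.trans (hl1 v))
  have hy0 : ∀ v, y l v ≠ 0 := fun v => norm_pos_iff.1 (hρ0.trans (hl2 v))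
  have hxn : ∀ v, ‖x l v‖ < 1 := fun v => by simpa using hx l v
  have hyn : ∀ v, ‖y l v‖ < 1 := fun v => by simpa using hy l v
  set N : ℝ := (2 : ℝ) ^ l with hN
  have hN0 : 0 < N := by positivity
  have hNc : N = Fintype.card (List.Vector Bool l) := by
    rw [card_vector, Fintype.card_bool, hN]; push_cast; rfl
  have hNC : ((2 : ℂ) ^ l) = (N : ℂ) := by rw [hN]; push_cast; rfl
  refine hl3.trans ?_
  rw [hNC]
  have hs1 := fam hsum (x l) (hx l) hx0 (N : ℂ)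
  have hs2 := fam hsum (y l) (hy l) hy0 (N : ℂ)
  set a : ℕ → ℂ := fun k => (∑ v, x l v ^ k * ((x l v)⁻¹) ^ D) / (N : ℂ) with ha
  set b : ℕ → ℂ := fun k => (∑ v, y l v ^ k * ((y l v)⁻¹) ^ D) / (N : ℂ) with hb
  have hs : HasSum (fun k => h k * a k - h k * b k)
      ((∑ v, ev (x l v)) / (N : ℂ) - (∑ v, ev (y l v)) / (N : ℂ)) := hs1.sub hs2
  set X : ℕ → ℝ := fun p => ‖∑ v, x l v ^ p‖ / N with hX
  set Y : ℕ → ℝ := fun p => ‖∑ v, y l v ^ p‖ / N with hY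
  have hX0 : ∀ p, 0 ≤ X p := fun p => by rw [hX]; positivity
  have hY0 : ∀ p, 0 ≤ Y p := fun p => by rw [hY]; positivity
  have hX1 : ∀ p, X p ≤ 1 := by
    intro p
    rw [hX]
    show ‖∑ v, x l v ^ p‖ / N ≤ 1
    rw [div_le_one hN0]
    refine (norm_sum_le_of_le (f := fun v => x l v ^ p) (n := fun _ => (1 : ℝ)) _ (fun v _ => ?_)).trans ?_
    · rw [norm_pow]; exact pow_le_one₀ (norm_nonneg _) (hxn v).le
    · rw [Finset.sum_const, Finset.card_univ, nsmul_eq_mul, mul_one, hNc]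
  have hY1 : ∀ p, Y p ≤ 1 := by
    intro p
    rw [hY]
    show ‖∑ v, y l v ^ p‖ / N ≤ 1
    rw [div_le_one hN0]
    refine (norm_sum_le_of_le (f := fun v => y l v ^ p) (n := fun _ => (1 : ℝ)) _ (fun v _ => ?_)).trans ?_
    · rw [norm_pow]; exact pow_le_one₀ (norm_nonneg _) (hyn v).le
    · rw [Finset.sum_const, Finset.card_univ, nsmul_eq_mul, mul_one, hNc]
  have hBX : ∀ N' : ℕ, ∑ p ∈ Finset.Icc 1 N', X p / p ≤ B := by
    intro N'
    refine le_trans (le_of_eq (Finset.sum_congr rfl ?_)) (hBx l N')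
    intro p _
    rw [hX, hN, div_div]
  have hBY : ∀ N' : ℕ, ∑ p ∈ Finset.Icc 1 N', Y p / p ≤ B := by
    intro N'
    refine le_trans (le_of_eq (Finset.sum_congr rfl ?_)) (hBy l N')
    intro p _
    rw [hY, hN, div_div]
  set e : ℝ := ρ⁻¹ ^ D - ρ ^ D with he
  have he0 : 0 ≤ e := by
    have h1 : ρ ^ D ≤ 1 := pow_le_one₀ hρ0.le hρ1.le
    have h2 : 1 ≤ ρ⁻¹ ^ D := one_le_pow₀ (by rw [one_le_inv₀ hρ0]; exact hρ1.le)
    linarith
  have haD : a D = 1 := coef_D (x l) hx0 hNc hN0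
  have hbD : b D = 1 := coef_D (y l) hy0 hNc hN0
  have hak : ∀ k, k ≠ D → ‖a k‖ ≤ X (ds D k) + (if k < D then e else 0) := fun k hk =>
    coef_le (x l) hx0 hρ0 hρ1 hl1 hxn hNc hN0 k hk
  have hbk : ∀ k, k ≠ D → ‖b k‖ ≤ Y (ds D k) + (if k < D then e else 0) := fun k hk =>
    coef_le (y l) hy0 hρ0 hρ1 hl2 hyn hNc hN0 k hk
  have hfin : ∀ F : Finset ℕ, ‖∑ k ∈ F, (h k * a k - h k * b k)‖ ≤
      4 * η * B + ε * √(8 * B) + δ := by
    intro F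
    have h1 : ∑ k ∈ F, (h k * a k - h k * b k) = ∑ k ∈ F.erase D, (h k * a k - h k * b k) := by
      symm
      apply Finset.sum_subset (Finset.erase_subset _ _)
      intro k hk hk'
      have : k = D := by
        by_contra hne
        exact hk' (Finset.mem_erase.2 ⟨hne, hk⟩)
      rw [this, haD, hbD, sub_self]
    rw [h1]
    have h2 : ∀ k ∈ F.erase D, ‖h k * a k - h k * b k‖ ≤
        ‖h k‖ * (X (ds D k) + Y (ds D k)) + (if k < D then ‖h k‖ * (2 * e) else 0) := by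
      intro k hk
      have hkD : k ≠ D := (Finset.mem_erase.1 hk).1
      rw [← mul_sub, norm_mul]
      have h3 : ‖a k - b k‖ ≤ (X (ds D k) + (if k < D then e else 0)) +
          (Y (ds D k) + (if k < D then e else 0)) :=
        (norm_sub_le _ _).trans (add_le_add (hak k hkD) (hbk k hkD))
      refine (mul_le_mul_of_nonneg_left h3 (norm_nonneg _)).trans (le_of_eq ?_)
      split_ifs <;> ring
    refine (norm_sum_le_of_le _ h2).trans ?_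
    rw [Finset.sum_add_distrib]
    have h4 := finite_est hB hη hε near far hX0 hY0 hX1 hY1 hBX hBY (F.erase D)
      (Finset.notMem_erase _ _)
    have h5 : ∑ k ∈ F.erase D, (if k < D then ‖h k‖ * (2 * e) else 0) ≤ S * (2 * e) := by
      rw [← Finset.sum_filter, hS, Finset.sum_mul]
      apply Finset.sum_le_sum_of_subset_of_nonneg
      · intro k hk
        rw [Finset.mem_filter] at hk
        exact Finset.mem_range.2 hk.2
      · intro k _ _; positivity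
    linarith
  exact le_of_tendsto' hs.norm hfin

end Pool.Agent.T6.H45.LC
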