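import Mathlib

set_option autoImplicit false

/-! # The recurrences of the double confluent Heun system -/

namespace Pool.Agent.T6.H45.Jos

open Filter Topology Set Complex

section rec

variable {κ μ : ℝ} {n : ℕ} {a h : ℤ → ℂ}

lemma block_aux (hκ : 0 < κ) (hμ : n + 2 * κ < 2 * μ)
    (hR1 : ∀ k : ℤ, (k : ℂ) * a k = μ * a (k - 1) + κ * h (k - 1))
    (hR2 : ∀ k : ℤ, ((k : ℂ) + n + 1) * h k + μ * h (k + 1) + κ * a (k + 1) = 0) :
    ∀ j : ℕ, j < n → ∃ α β : ℝ, 0 < α ∧ 0 ≤ β ∧ β ≤ α ∧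
      a (-(n : ℤ) + j) = (-1) ^ j * α * a (-(n : ℤ)) ∧
      h (-(n : ℤ) + j) = -((-1) ^ j * β * a (-(n : ℤ))) := by
  have hn0 : (0 : ℝ) ≤ n := Nat.cast_nonneg n
  have hμ0 : 0 < μ := by linarith
  have hμκ : (n : ℝ) / 2 < μ - κ := by linarith
  have hμc : (μ : ℂ) ≠ 0 := by exact_mod_cast hμ0.ne'
  intro j
  induction j with
  | zero =>
    intro _
    refine ⟨1, κ / μ, one_pos, by positivity, ?_, by simp, ?_⟩
    · rw [div_le_one hμ0]; linarith
    · have h1 := hR2 (-(n : ℤ) - 1)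
      have e : (-(n : ℤ) - 1 + 1) = -(n : ℤ) := by ring
      rw [e] at h1
      push_cast at h1
      have h2 : (μ : ℂ) * h (-(n : ℤ)) = -(κ * a (-(n : ℤ))) := by linear_combination h1
      simp only [Nat.cast_zero, add_zero, pow_zero, one_mul]
      push_cast
      field_simp
      linear_combination h2
  | succ j ih =>
    intro hj
    obtain ⟨α, β, hα, hβ, hβα, ea, eh⟩ := ih (by omega)
    have hj' : ((j : ℝ) + 1) + 1 ≤ n := by exact_mod_cast hj
    set d : ℝ := (n : ℝ) - 1 - j with hd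
    have hd0 : 0 < d := by rw [hd]; linarith
    have hnum : 0 < μ * α - κ * β := by nlinarith
    set α' : ℝ := (μ * α - κ * β) / d with hα'
    have hα'0 : 0 < α' := div_pos hnum hd0
    set β' : ℝ := ((j + 1) * β + κ * α') / μ with hβ'
    refine ⟨α', β', hα'0, by positivity, ?_, ?_, ?_⟩
    · rw [hβ', div_le_iff₀ hμ0]
      -- (j+1) β ≤ (μ - κ) α'
      have h1 : (j + 1) * β * d ≤ (μ - κ) * (μ * α - κ * β) := by
        have h2 : ((j : ℝ) + 1) * d ≤ (μ - κ) ^ 2 := by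
          have h3 : ((j : ℝ) + 1) * d ≤ (n / 2) ^ 2 := by
            rw [hd]
            nlinarith [sq_nonneg ((j : ℝ) + 1 - ((n : ℝ) - 1 - j))]
          have h4 : ((n : ℝ) / 2) ^ 2 ≤ (μ - κ) ^ 2 := pow_le_pow_left₀ (by positivity) hμκ.le 2
          linarith
        have h5 : ((j : ℝ) + 1) * d * β ≤ (μ - κ) ^ 2 * β := mul_le_mul_of_nonneg_right h2 hβ
        have h6 : (μ - κ) * β ≤ μ * α - κ * β := by nlinarith
        have h7 : (μ - κ) * ((μ - κ) * β) ≤ (μ - κ) * (μ * α - κ * β) :=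
          mul_le_mul_of_nonneg_left h6 (by linarith)
        nlinarith
      have h8 : (j + 1) * β ≤ (μ - κ) * α' := by
        rw [hα', ← mul_div_assoc, le_div_iff₀ hd0]
        exact h1
      linarith
    · have h1 := hR1 (-(n : ℤ) + (j + 1 : ℕ))
      have e : (-(n : ℤ) + (j + 1 : ℕ) - 1) = -(n : ℤ) + j := by push_cast; ring
      rw [e, ea, eh] at h1
      have hdc : (d : ℂ) ≠ 0 := by exact_mod_cast hd0.ne'
      have hdd : ((-(n : ℤ) + (j + 1 : ℕ) : ℤ) : ℂ) = -(d : ℂ) := by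
        rw [hd]; push_cast; ring
      rw [hdd] at h1
      have hαd : (α' : ℂ) * d = μ * α - κ * β := by
        have : α' * d = μ * α - κ * β := by rw [hα']; field_simp
        exact_mod_cast this
      have h2 : (d : ℂ) * a (-(n : ℤ) + (j + 1 : ℕ)) =
          (d : ℂ) * ((-1) ^ (j + 1) * α' * a (-(n : ℤ))) := by
        rw [pow_succ]
        linear_combination (-1 : ℂ) * h1 + ((-1) ^ j * a (-(n : ℤ))) * hαd
      exact mul_left_cancel₀ hdc h2
    · have h1 := hR2 (-(n : ℤ) + j)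
      have e : (-(n : ℤ) + j + 1) = -(n : ℤ) + (j + 1 : ℕ) := by push_cast; ring
      rw [e] at h1
      have h1' := hR1 (-(n : ℤ) + (j + 1 : ℕ))
      have e' : (-(n : ℤ) + (j + 1 : ℕ) - 1) = -(n : ℤ) + j := by push_cast; ring
      rw [e', ea, eh] at h1'
      have hdc : (d : ℂ) ≠ 0 := by exact_mod_cast hd0.ne'
      have hdd : ((-(n : ℤ) + (j + 1 : ℕ) : ℤ) : ℂ) = -(d : ℂ) := by
        rw [hd]; push_cast; ring
      rw [hdd] at h1'
      have hαd : (α' : ℂ) * d = μ * α - κ * β := by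
        have : α' * d = μ * α - κ * β := by rw [hα']; field_simp
        exact_mod_cast this
      have h2 : a (-(n : ℤ) + (j + 1 : ℕ)) = ((-1) ^ (j + 1) * α' * a (-(n : ℤ))) := by
        apply mul_left_cancel₀ hdc
        rw [pow_succ]
        linear_combination (-1 : ℂ) * h1' + ((-1) ^ j * a (-(n : ℤ))) * hαd
      rw [h2, eh] at h1
      have hβμ : (β' : ℂ) * μ = (j + 1) * β + κ * α' := by
        have : β' * μ = (j + 1) * β + κ * α' := by rw [hβ']; field_simp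
        exact_mod_cast this
      have hjj : ((-(n : ℤ) + j : ℤ) : ℂ) + n + 1 = j + 1 := by push_cast; ring
      rw [hjj] at h1
      have h3 : (μ : ℂ) * h (-(n : ℤ) + (j + 1 : ℕ)) =
          (μ : ℂ) * (-((-1) ^ (j + 1) * β' * a (-(n : ℤ)))) := by
        rw [pow_succ] at h1 ⊢
        linear_combination h1 - ((-1) ^ j * a (-(n : ℤ))) * hβμ
      exact mul_left_cancel₀ hμc h3

/-- The finite block of coefficients vanishes. -/
theorem block (hn : 1 ≤ n) (hκ : 0 < κ) (hμ : n + 2 * κ < 2 * μ)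
    (hR1 : ∀ k : ℤ, (k : ℂ) * a k = μ * a (k - 1) + κ * h (k - 1))
    (hR2 : ∀ k : ℤ, ((k : ℂ) + n + 1) * h k + μ * h (k + 1) + κ * a (k + 1) = 0) :
    ∀ j : ℕ, j < n → a (-(n : ℤ) + j) = 0 ∧ h (-(n : ℤ) + j) = 0 := by
  have hzero : a (-(n : ℤ)) = 0 := by
    obtain ⟨α, β, hα, hβ, hβα, ea, eh⟩ := block_aux hκ hμ hR1 hR2 (n - 1) (by omega)
    have e : (-(n : ℤ) + ((n - 1 : ℕ) : ℤ)) = 0 - 1 := by
      push_cast [Nat.cast_sub hn]; ring
    rw [e] at ea eh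
    have h1 := hR1 0
    rw [ea, eh] at h1
    have hnum : 0 < μ * α - κ * β := by
      have hn0 : (0 : ℝ) ≤ n := Nat.cast_nonneg n
      have hμ0 : 0 < μ := by linarith
      nlinarith
    have hnc : ((μ : ℂ) * α - κ * β) ≠ 0 := by exact_mod_cast hnum.ne'
    have h2 : ((-1 : ℂ) ^ (n - 1)) * (((μ : ℂ) * α - κ * β) * a (-(n : ℤ))) = 0 := by
      push_cast at h1
      linear_combination (-1 : ℂ) * h1
    have h3 : ((-1 : ℂ) ^ (n - 1)) ≠ 0 := pow_ne_zero _ (by norm_num)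
    have h4 := (mul_eq_zero.mp h2).resolve_left h3
    exact (mul_eq_zero.mp h4).resolve_left hnc
  intro j hj
  obtain ⟨α, β, hα, hβ, hβα, ea, eh⟩ := block_aux hκ hμ hR1 hR2 j hj
  rw [hzero] at ea eh
  constructor
  · rw [ea]; ring
  · rw [eh]; ring

/-- The real solution of the recurrences. -/
noncomputable def es (κ μ : ℝ) (n : ℕ) : ℕ → ℝ × ℝ
  | 0 => (1, -(κ / μ))
  | k + 1 => ((μ * (es κ μ n k).1 + κ * (es κ μ n k).2) / (k + 1),
      -((k + n + 1) * (es κ μ n k).2 +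
        κ * ((μ * (es κ μ n k).1 + κ * (es κ μ n k).2) / (k + 1))) / μ)

lemma es_one (κ μ : ℝ) (n k : ℕ) :
    ((k : ℝ) + 1) * (es κ μ n (k + 1)).1 = μ * (es κ μ n k).1 + κ * (es κ μ n k).2 := by
  have : (k : ℝ) + 1 ≠ 0 := by positivity
  rw [es]
  field_simp

lemma es_two (κ : ℝ) {μ : ℝ} (hμ : 0 < μ) (n k : ℕ) :
    ((k : ℝ) + n + 1) * (es κ μ n k).2 + μ * (es κ μ n (k + 1)).2 + κ * (es κ μ n (k + 1)).1
      = 0 := by
  have : (k : ℝ) + 1 ≠ 0 := by positivity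
  rw [es]
  field_simp
  ring

/-- The coefficients with nonnegative index. -/
theorem pos_coeff (hn : 1 ≤ n) (hκ : 0 < κ) (hμ : n + 2 * κ < 2 * μ)
    (hR1 : ∀ k : ℤ, (k : ℂ) * a k = μ * a (k - 1) + κ * h (k - 1))
    (hR2 : ∀ k : ℤ, ((k : ℂ) + n + 1) * h k + μ * h (k + 1) + κ * a (k + 1) = 0) :
    ∀ k : ℕ, a k = a 0 * (es κ μ n k).1 ∧ h k = a 0 * (es κ μ n k).2 := by
  have hn0 : (0 : ℝ) ≤ n := Nat.cast_nonneg n
  have hμ0 : 0 < μ := by linarith
  have hμc : (μ : ℂ) ≠ 0 := by exact_mod_cast hμ0.ne'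
  intro k
  induction k with
  | zero =>
    refine ⟨by simp [es], ?_⟩
    have h1 := hR2 (-1)
    have h2 := (block hn hκ hμ hR1 hR2 (n - 1) (by omega)).2
    have e : (-(n : ℤ) + ((n - 1 : ℕ) : ℤ)) = -1 := by
      push_cast [Nat.cast_sub hn]; ring
    rw [e] at h2
    rw [h2] at h1
    simp only [es, Nat.cast_zero]
    have e1 : (-1 : ℤ) + 1 = 0 := by norm_num
    rw [e1] at h1
    push_cast at h1 ⊢
    field_simp
    linear_combination h1
  | succ k ih =>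
    obtain ⟨ea, eh⟩ := ih
    have hk : ((k : ℂ) + 1) ≠ 0 := by exact_mod_cast Nat.succ_ne_zero k
    have h1 := hR1 ((k + 1 : ℕ) : ℤ)
    have e : (((k + 1 : ℕ) : ℤ) - 1) = (k : ℤ) := by push_cast; ring
    rw [e, ea, eh] at h1
    have r1 : ((k : ℂ) + 1) * ((es κ μ n (k + 1)).1 : ℂ) =
        μ * ((es κ μ n k).1 : ℂ) + κ * ((es κ μ n k).2 : ℂ) := by
      exact_mod_cast es_one κ μ n k
    have ha : a ((k + 1 : ℕ) : ℤ) = a 0 * (es κ μ n (k + 1)).1 := by
      apply mul_left_cancel₀ hk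
      push_cast at h1 ⊢
      linear_combination h1 - (a 0) * r1
    refine ⟨ha, ?_⟩
    have h2 := hR2 (k : ℤ)
    have e' : ((k : ℤ) + 1) = ((k + 1 : ℕ) : ℤ) := by push_cast; ring
    rw [e', ha, eh] at h2
    have r2 : ((k : ℂ) + n + 1) * ((es κ μ n k).2 : ℂ) + μ * ((es κ μ n (k + 1)).2 : ℂ) +
        κ * ((es κ μ n (k + 1)).1 : ℂ) = 0 := by
      exact_mod_cast es_two κ hμ0 n k
    apply mul_left_cancel₀ hμc
    push_cast at h2 ⊢
    linear_combination h2 - (a 0) * r2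

/-- Superexponential decay. -/
theorem coeff_decay {C : ℝ} (hκ : 0 < κ) (hμ : 0 < μ)
    (hR1 : ∀ k : ℤ, (k : ℂ) * a k = μ * a (k - 1) + κ * h (k - 1))
    (hR2 : ∀ k : ℤ, ((k : ℂ) + n + 1) * h k + μ * h (k + 1) + κ * a (k + 1) = 0)
    (ha : ∀ k : ℤ, ‖a k‖ ≤ C) (hh : ∀ k : ℤ, ‖h k‖ ≤ C) :
    ∀ N k : ℕ, N ≤ k → ‖a k‖ ≤ C * (μ + κ) ^ N / N.factorial ∧
      ‖h k‖ ≤ C * (μ + κ) ^ N / N.factorial := by
  have hC : 0 ≤ C := (norm_nonneg _).trans (ha 0)
  intro N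
  induction N with
  | zero =>
    intro k _
    simpa using ⟨ha k, hh k⟩
  | succ N ih =>
    intro k hk
    have hN1 : (0 : ℝ) < (N : ℝ) + 1 := by positivity
    have hfac : (((N + 1).factorial : ℕ) : ℝ) = ((N : ℝ) + 1) * (N.factorial : ℝ) := by
      rw [Nat.factorial_succ]; push_cast; ring
    set B : ℝ := C * (μ + κ) ^ N / N.factorial with hB
    have hB0 : 0 ≤ B := by positivity
    have hgoal : C * (μ + κ) ^ (N + 1) / ((N + 1).factorial : ℕ) = (μ + κ) * B / (N + 1) := by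
      rw [hfac, hB, pow_succ]
      field_simp
    rw [hgoal]
    have hkN : ((N : ℝ) + 1) ≤ k := by exact_mod_cast hk
    constructor
    · have h1 := hR1 (k : ℤ)
      have e : ((k : ℤ) - 1) = ((k - 1 : ℕ) : ℤ) := by
        push_cast [Nat.cast_sub (by omega : 1 ≤ k)]; ring
      rw [e] at h1
      obtain ⟨i1, i2⟩ := ih (k - 1) (by omega)
      have h2 : ‖(k : ℂ) * a k‖ ≤ (μ + κ) * B := by
        have : ((k : ℤ) : ℂ) * a k = (k : ℂ) * a k := by push_cast; ring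
        rw [← this, h1]
        calc _ ≤ ‖(μ : ℂ) * a ((k - 1 : ℕ) : ℤ)‖ + ‖(κ : ℂ) * h ((k - 1 : ℕ) : ℤ)‖ := norm_add_le _ _
          _ = μ * ‖a ((k - 1 : ℕ) : ℤ)‖ + κ * ‖h ((k - 1 : ℕ) : ℤ)‖ := by
            rw [norm_mul, norm_mul, Complex.norm_real, Complex.norm_real, Real.norm_eq_abs,
              Real.norm_eq_abs, abs_of_pos hμ, abs_of_pos hκ]
          _ ≤ μ * B + κ * B := by gcongr
          _ = (μ + κ) * B := by ring
      rw [norm_mul, Complex.norm_natCast] at h2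
      rw [le_div_iff₀ hN1]
      have h3 : ‖a k‖ * ((N : ℝ) + 1) ≤ (k : ℝ) * ‖a k‖ := by
        rw [mul_comm]
        exact mul_le_mul_of_nonneg_right hkN (norm_nonneg _)
      linarith
    · have h1 := hR2 (k : ℤ)
      have e : ((k : ℤ) + 1) = ((k + 1 : ℕ) : ℤ) := by push_cast; ring
      rw [e] at h1
      obtain ⟨i1, i2⟩ := ih (k + 1) (by omega)
      have h2 : ‖((k + n + 1 : ℕ) : ℂ) * h k‖ ≤ (μ + κ) * B := by
        have : ((k + n + 1 : ℕ) : ℂ) * h k = -(μ * h ((k + 1 : ℕ) : ℤ) + κ * a ((k + 1 : ℕ) : ℤ)) := by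
          push_cast at h1 ⊢
          linear_combination h1
        rw [this, norm_neg]
        calc _ ≤ ‖(μ : ℂ) * h ((k + 1 : ℕ) : ℤ)‖ + ‖(κ : ℂ) * a ((k + 1 : ℕ) : ℤ)‖ := norm_add_le _ _
          _ = μ * ‖h ((k + 1 : ℕ) : ℤ)‖ + κ * ‖a ((k + 1 : ℕ) : ℤ)‖ := by
            rw [norm_mul, norm_mul, Complex.norm_real, Complex.norm_real, Real.norm_eq_abs,
              Real.norm_eq_abs, abs_of_pos hμ, abs_of_pos hκ]
          _ ≤ μ * B + κ * B := by gcongr
          _ = (μ + κ) * B := by ring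
      rw [norm_mul, Complex.norm_natCast] at h2
      rw [le_div_iff₀ hN1]
      have h3 : ‖h k‖ * ((N : ℝ) + 1) ≤ ((k + n + 1 : ℕ) : ℝ) * ‖h k‖ := by
        rw [mul_comm]
        apply mul_le_mul_of_nonneg_right _ (norm_nonneg _)
        push_cast
        have : (0 : ℝ) ≤ n := Nat.cast_nonneg n
        linarith
      linarith

end rec

end Pool.Agent.T6.H45.Jos
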