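import Mathlib
import Pool.Agent.T6.H45.Jos9

set_option autoImplicit false

/-! # The circle identity -/

namespace Pool.Agent.T6.H45.Jos

open Filter Topology Set Complex
open scoped ComplexConjugate

variable {κ μ : ℝ} {n : ℕ} {C S : ℝ}

/-- The point `e^{iτ}`. -/
noncomputable def zz (τ : ℝ) : ℂ := Complex.exp (τ * I)

lemma hasDerivAt_zz (τ : ℝ) : HasDerivAt zz (zz τ * I) τ := by
  have h1 : HasDerivAt (fun τ : ℝ => (τ : ℂ) * I) I τ := by
    have := (Complex.ofRealCLM.hasDerivAt (x := τ)).mul_const I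
    simpa using this
  exact h1.cexp

lemma zz_mul_conj (τ : ℝ) : zz τ * conj (zz τ) = 1 := by
  unfold zz
  rw [← Complex.exp_conj, ← Complex.exp_add]
  simp

lemma zz_sub_conj (τ : ℝ) : zz τ - conj (zz τ) = 2 * I * Real.sin τ := by
  unfold zz
  rw [← Complex.exp_conj]
  simp only [map_mul, Complex.conj_ofReal, Complex.conj_I]
  rw [Complex.exp_mul_I, show (τ : ℂ) * -I = (-τ : ℂ) * I by ring, Complex.exp_mul_I]
  rw [Complex.cos_neg, Complex.sin_neg, Complex.ofReal_sin]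
  ring

lemma zz_zero : zz 0 = 1 := by simp [zz]

lemma zz_pi : zz Real.pi = -1 := by
  unfold zz; exact Complex.exp_pi_mul_I

/-- `|E₀|² - |H₀|²` on the unit circle, as a complex number. -/
noncomputable def DD (κ μ : ℝ) (n : ℕ) (τ : ℝ) : ℂ :=
  E0 κ μ n (zz τ) * conj (E0 κ μ n (zz τ)) - H0 κ μ n (zz τ) * conj (H0 κ μ n (zz τ))

lemma DD_eq (κ μ : ℝ) (n : ℕ) (τ : ℝ) :
    DD κ μ n τ = ((‖E0 κ μ n (zz τ)‖ ^ 2 - ‖H0 κ μ n (zz τ)‖ ^ 2 : ℝ) : ℂ) := by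
  unfold DD
  rw [Complex.mul_conj, Complex.mul_conj, Complex.normSq_eq_norm_sq, Complex.normSq_eq_norm_sq]
  push_cast
  ring

lemma Decay.hasDerivAt_DD (hμ : 0 < μ) (h : Decay κ μ n C S) (τ : ℝ) :
    HasDerivAt (DD κ μ n) (-(2 * μ * Real.sin τ) * DD κ μ n τ) τ := by
  have hE : HasDerivAt (fun τ => E0 κ μ n (zz τ))
      ((μ * E0 κ μ n (zz τ) + κ * H0 κ μ n (zz τ)) * (zz τ * I)) τ :=
    HasDerivAt.comp τ (h.hasDerivAt_E (zz τ)) (hasDerivAt_zz τ)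
  have hH : HasDerivAt (fun τ => H0 κ μ n (zz τ))
      (H0' κ μ n (zz τ) * (zz τ * I)) τ :=
    HasDerivAt.comp τ (h.hasDerivAt_H (zz τ)) (hasDerivAt_zz τ)
  have hode := h.ode_H hμ (zz τ)
  have hz := zz_mul_conj τ
  have hH' : H0' κ μ n (zz τ) * (zz τ * I) =
      I * conj (zz τ) * (-(((n : ℂ) + 1) * zz τ + μ) * H0 κ μ n (zz τ) - κ * E0 κ μ n (zz τ)) := by
    rw [← hode]
    linear_combination (-(I * zz τ * H0' κ μ n (zz τ))) * hz
  rw [hH'] at hH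
  have hEc : HasDerivAt (fun τ => conj (E0 κ μ n (zz τ)))
      (conj ((μ * E0 κ μ n (zz τ) + κ * H0 κ μ n (zz τ)) * (zz τ * I))) τ := hE.star
  have hHc : HasDerivAt (fun τ => conj (H0 κ μ n (zz τ)))
      (conj (I * conj (zz τ) * (-(((n : ℂ) + 1) * zz τ + μ) * H0 κ μ n (zz τ) -
        κ * E0 κ μ n (zz τ)))) τ := hH.star
  have h1 := (hE.mul hEc).sub (hH.mul hHc)
  refine h1.congr_deriv ?_
  have hs := zz_sub_conj τ
  have e : -(2 * (μ : ℂ) * Real.sin τ) = I * μ * (zz τ - conj (zz τ)) := by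
    rw [hs]
    linear_combination (-(2 * (μ : ℂ) * Real.sin τ)) * Complex.I_sq
  rw [e]
  unfold DD
  simp only [map_mul, map_sub, map_add, map_neg, Complex.conj_ofReal, Complex.conj_I,
    Complex.conj_conj, map_natCast, map_one]
  generalize E0 κ μ n (zz τ) = u at *
  generalize H0 κ μ n (zz τ) = v at *
  generalize conj (zz τ) = w at *
  generalize zz τ = z at *
  generalize conj u = u' at *
  generalize conj v = v' at *
  linear_combination (I * (n + 1) * v * v' - I * (n + 1) * v * v') * hz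

/-- The circle identity. -/
theorem Decay.circle (hμ : 0 < μ) (h : Decay κ μ n C S) (τ : ℝ) :
    ‖E0 κ μ n (zz τ)‖ ^ 2 - ‖H0 κ μ n (zz τ)‖ ^ 2 =
      (‖E0 κ μ n 1‖ ^ 2 - ‖H0 κ μ n 1‖ ^ 2) * Real.exp (2 * μ * (Real.cos τ - 1)) := by
  have hd : ∀ τ : ℝ, HasDerivAt (fun τ : ℝ => DD κ μ n τ * Complex.exp (-(2 * μ * Real.cos τ))) 0 τ := by
    intro τ
    have h1 : HasDerivAt (fun τ : ℝ => ((Real.cos τ : ℝ) : ℂ)) ((-Real.sin τ : ℝ) : ℂ) τ :=
      (Real.hasDerivAt_cos τ).ofReal_comp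
    have h2 := ((h1.const_mul (2 * (μ : ℂ))).neg).cexp
    have h3 := (h.hasDerivAt_DD hμ τ).mul h2
    refine h3.congr_deriv ?_
    push_cast
    ring
  have hconst : ∀ s t : ℝ, DD κ μ n s * Complex.exp (-(2 * μ * Real.cos s)) =
      DD κ μ n t * Complex.exp (-(2 * μ * Real.cos t)) :=
    is_const_of_deriv_eq_zero (fun τ => (hd τ).differentiableAt) (fun τ => (hd τ).deriv)
  have h1 := hconst τ 0
  rw [DD_eq, DD_eq, zz_zero, Real.cos_zero] at h1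
  have e1 : Complex.exp (-(2 * μ * Real.cos τ)) = ((Real.exp (-(2 * μ * Real.cos τ)) : ℝ) : ℂ) := by
    push_cast; rfl
  have e2 : Complex.exp (-(2 * μ * (1 : ℝ))) = ((Real.exp (-(2 * μ)) : ℝ) : ℂ) := by
    push_cast; ring_nf
  rw [e1, e2] at h1
  have h2 : (‖E0 κ μ n (zz τ)‖ ^ 2 - ‖H0 κ μ n (zz τ)‖ ^ 2) * Real.exp (-(2 * μ * Real.cos τ)) =
      (‖E0 κ μ n 1‖ ^ 2 - ‖H0 κ μ n 1‖ ^ 2) * Real.exp (-(2 * μ)) := by exact_mod_cast h1
  have h3 : Real.exp (-(2 * μ * Real.cos τ)) * Real.exp (2 * μ * Real.cos τ) = 1 := by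
    rw [← Real.exp_add]; simp
  have h4 : Real.exp (2 * μ * (Real.cos τ - 1)) = Real.exp (-(2 * μ)) * Real.exp (2 * μ * Real.cos τ) := by
    rw [← Real.exp_add]; congr 1; ring
  rw [h4, ← mul_assoc, ← h2, mul_assoc, h3, mul_one]

end Pool.Agent.T6.H45.Jos
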