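import Mathlib
import Pool.Agent.T6.H45.Jos2

set_option autoImplicit false

/-! # The half-period WKB type estimate -/

namespace Pool.Agent.T6.H45.Jos

open Filter Topology Set

/-- A convenient monotonicity lemma. -/
lemma le_of_deriv_nonpos {f f' : ℝ → ℝ} {s t : ℝ} (hst : s ≤ t)
    (hf : ∀ x ∈ Icc s t, HasDerivAt f (f' x) x) (h : ∀ x ∈ Ioo s t, f' x ≤ 0) : f t ≤ f s := by
  have hc : ContinuousOn f (Icc s t) := fun x hx => (hf x hx).continuousAt.continuousWithinAt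
  have hanti : AntitoneOn f (Icc s t) := by
    apply antitoneOn_of_deriv_nonpos (convex_Icc s t) hc
    · rw [interior_Icc]
      intro x hx
      exact (hf x (Ioo_subset_Icc_self hx)).differentiableAt.differentiableWithinAt
    · rw [interior_Icc]
      intro x hx
      rw [(hf x (Ioo_subset_Icc_self hx)).deriv]
      exact h x hx
  exact hanti (left_mem_Icc.mpr hst) (right_mem_Icc.mpr hst) hst

lemma W_alg {F A a s c F1 : ℝ} (ha : 0 < a) (hA : 0 < A) (hF : a < F)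
    (hAF : A ^ 2 = F ^ 2 - a ^ 2) (hc : c ≤ 1) :
    ((1 - ((F - A) / a) ^ 2) * (F - a * c) + 2 * s * ((F1 - F * F1 / A) / a)) /
      (1 - 2 * ((F - A) / a) * c + ((F - A) / a) ^ 2)
      = A - a * F1 * s / (A * (F - a * c)) := by
  have hN : 0 < F - a * c := by nlinarith
  have hFA : 0 < F - A := by nlinarith
  have e1 : 1 - ((F - A) / a) ^ 2 = 2 * A * ((F - A) / a) / a := by
    field_simp
    linear_combination hAF
  have e2 : 1 - 2 * ((F - A) / a) * c + ((F - A) / a) ^ 2 = 2 * ((F - A) / a) * (F - a * c) / a := by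
    field_simp
    linear_combination hAF
  have e3 : (F1 - F * F1 / A) / a = -((F - A) / a) * F1 / A := by
    field_simp
    ring
  rw [e1, e2, e3]
  field_simp
  ring

lemma r_alg {F l m a F1 : ℝ} (ha : 0 < a) (hl : 0 ≤ l) (hm : 0 ≤ m) (hml : l - a < m) (hF : a < F)
    (hF1 : F1 ^ 2 = m ^ 2 - (F - l) ^ 2) :
    0 ≤ (F - l) * (F ^ 2 - a ^ 2) + 3 * F * F1 ^ 2 := by
  have hF0 : 0 < F := by linarith
  rcases le_or_gt l F with h | h
  · have h1 : 0 ≤ F ^ 2 - a ^ 2 := by nlinarith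
    have h2 : 0 ≤ F - l := by linarith
    positivity
  · have hu : 0 < l - F := by linarith
    have h1 : (F - a) * (F - a + 2 * (l - F)) ≤ F1 ^ 2 := by
      rw [hF1]
      nlinarith
    have h2 : 0 < F - a := by linarith
    have h3 : 3 * F * ((F - a) * (F - a + 2 * (l - F))) ≤ 3 * F * F1 ^ 2 :=
      mul_le_mul_of_nonneg_left h1 (by positivity)
    have h4 : 0 ≤ 3 * F * ((F - a) * (F - a + 2 * (l - F))) - (l - F) * (F ^ 2 - a ^ 2) := by
      have : 3 * F * ((F - a) * (F - a + 2 * (l - F))) - (l - F) * (F ^ 2 - a ^ 2)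
          = 3 * F * (F - a) ^ 2 + (F - a) * (l - F) * (5 * F - a) := by ring
      rw [this]
      have : 0 < 5 * F - a := by linarith
      positivity
    nlinarith

section half

variable {l m a : ℝ}

/-- The forcing. -/
noncomputable def FF (l m τ : ℝ) : ℝ := l + m * Real.cos τ

lemma hasDerivAt_FF (l m τ : ℝ) : HasDerivAt (FF l m) (-(m * Real.sin τ)) τ := by
  have := ((Real.hasDerivAt_cos τ).const_mul m).const_add l
  refine this.congr_deriv ?_
  ring

lemma hasDerivAt_FF1 (m τ : ℝ) :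
    HasDerivAt (fun τ => -(m * Real.sin τ)) (-(m * Real.cos τ)) τ :=
  ((Real.hasDerivAt_sin τ).const_mul m).neg

/-- `√(F² - a²)`. -/
noncomputable def AA (l m a τ : ℝ) : ℝ := Real.sqrt (FF l m τ ^ 2 - a ^ 2)

lemma AA_sq (ha : 0 < a) {τ : ℝ} (h : a ≤ FF l m τ) : AA l m a τ ^ 2 = FF l m τ ^ 2 - a ^ 2 := by
  unfold AA
  rw [Real.sq_sqrt]
  nlinarith

lemma AA_pos (ha : 0 < a) {τ : ℝ} (h : a < FF l m τ) : 0 < AA l m a τ := by
  unfold AA
  apply Real.sqrt_pos.mpr
  nlinarith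

lemma hasDerivAt_AA (ha : 0 < a) {τ : ℝ} (h : a < FF l m τ) :
    HasDerivAt (AA l m a) (FF l m τ * (-(m * Real.sin τ)) / AA l m a τ) τ := by
  have h1 : HasDerivAt (fun τ => FF l m τ ^ 2 - a ^ 2) (2 * FF l m τ * (-(m * Real.sin τ))) τ := by
    have := ((hasDerivAt_FF l m τ).pow 2).sub_const (a ^ 2)
    simpa using this
  have hne : FF l m τ ^ 2 - a ^ 2 ≠ 0 := by nlinarith
  have h2 := h1.sqrt hne
  refine h2.congr_deriv ?_
  have : Real.sqrt (FF l m τ ^ 2 - a ^ 2) = AA l m a τ := rfl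
  rw [this]
  have hp := (AA_pos ha h).ne'
  field_simp

/-- `ρ = (F - A)/a`. -/
noncomputable def RR (l m a τ : ℝ) : ℝ := (FF l m τ - AA l m a τ) / a

lemma hasDerivAt_RR (ha : 0 < a) {τ : ℝ} (h : a < FF l m τ) :
    HasDerivAt (RR l m a)
      ((-(m * Real.sin τ) - FF l m τ * (-(m * Real.sin τ)) / AA l m a τ) / a) τ :=
  ((hasDerivAt_FF l m τ).sub (hasDerivAt_AA ha h)).div_const a

lemma RR_mem (ha : 0 < a) {τ : ℝ} (h : a < FF l m τ) : 0 < RR l m a τ ∧ RR l m a τ < 1 := by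
  have hA := AA_pos ha h
  have hA2 := AA_sq ha h.le
  unfold RR
  constructor
  · apply div_pos _ ha
    nlinarith
  · rw [div_lt_one ha]
    nlinarith

/-- `r = a F'/A³`. -/
noncomputable def rr (l m a τ : ℝ) : ℝ := a * (-(m * Real.sin τ)) / AA l m a τ ^ 3

lemma hasDerivAt_rr (ha : 0 < a) {τ : ℝ} (h : a < FF l m τ) :
    HasDerivAt (rr l m a)
      (-(a * ((FF l m τ - l) * (FF l m τ ^ 2 - a ^ 2) + 3 * FF l m τ * (-(m * Real.sin τ)) ^ 2)
        / AA l m a τ ^ 5)) τ := by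
  have hA := AA_pos ha h
  have hA2 := AA_sq ha h.le
  have h1 := ((hasDerivAt_FF1 m τ).const_mul a).div ((hasDerivAt_AA ha h).pow 3)
    (by exact pow_ne_zero 3 hA.ne')
  refine h1.congr_deriv ?_
  rw [← hA2]
  have e : FF l m τ - l = m * Real.cos τ := by unfold FF; ring
  rw [e]
  simp only [Pi.pow_apply]
  generalize AA l m a τ = A at *
  have := hA.ne'
  field_simp
  push_cast
  ring

lemma hasDerivAt_G (ha : 0 < a) {τ : ℝ} (h : a < FF l m τ) {θ : ℝ → ℝ}
    (hθ : HasDerivAt θ (FF l m τ - a * Real.cos (θ τ)) τ) :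
    HasDerivAt (fun τ => (FF l m τ + a) * (1 - Real.cos (θ τ)) / (FF l m τ - a * Real.cos (θ τ)))
      (-(a * Real.sin (θ τ) ^ 2 * (-(m * Real.sin τ)) / (FF l m τ - a * Real.cos (θ τ)) ^ 2)
        + (FF l m τ ^ 2 - a ^ 2) * Real.sin (θ τ) / (FF l m τ - a * Real.cos (θ τ))) τ := by
  have hN : 0 < FF l m τ - a * Real.cos (θ τ) := by
    have := Real.cos_le_one (θ τ)
    nlinarith
  have h1 := (((hasDerivAt_FF l m τ).add_const a).mul (hθ.cos.const_sub 1)).div
    ((hasDerivAt_FF l m τ).sub (hθ.cos.const_mul a)) hN.ne'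
  refine h1.congr_deriv ?_
  have hsc := Real.sin_sq_add_cos_sq (θ τ)
  change ((-(m * Real.sin τ) * (1 - Real.cos (θ τ)) + (FF l m τ + a) *
      -(-Real.sin (θ τ) * (FF l m τ - a * Real.cos (θ τ)))) * (FF l m τ - a * Real.cos (θ τ)) -
        ((FF l m τ + a) * (1 - Real.cos (θ τ))) *
        (-(m * Real.sin τ) - a * (-Real.sin (θ τ) * (FF l m τ - a * Real.cos (θ τ))))) /
      (FF l m τ - a * Real.cos (θ τ)) ^ 2 = _
  clear h1 hθ
  generalize Real.sin (θ τ) = s at *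
  generalize Real.cos (θ τ) = c at *
  generalize FF l m τ = F at *
  have hne := hN.ne'
  have e : -(a * s ^ 2 * -(m * Real.sin τ) / (F - a * c) ^ 2) + (F ^ 2 - a ^ 2) * s / (F - a * c)
      = (-(a * s ^ 2 * -(m * Real.sin τ)) + (F ^ 2 - a ^ 2) * s * (F - a * c)) / (F - a * c) ^ 2 := by
    rw [add_div, mul_div_assoc ((F ^ 2 - a ^ 2) * s) (F - a * c) ((F - a * c) ^ 2)]
    have : (F - a * c) / (F - a * c) ^ 2 = 1 / (F - a * c) := by
      rw [div_eq_div_iff (pow_ne_zero 2 hne) hne]; ring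
    rw [this]
    ring
  rw [e]
  congr 1
  linear_combination (-(a * m * Real.sin τ)) * hsc

end half

end Pool.Agent.T6.H45.Jos
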