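import Mathlib
import Pool.Agent.T6.H45.Jos3
import Pool.Agent.T6.H45.Jos10

set_option autoImplicit false

/-! # Positivity on the real axis -/

namespace Pool.Agent.T6.H45.Jos

open Filter Topology Set

lemma hasDerivAt_min_sq (y : ℝ) : HasDerivAt (fun y : ℝ => (min y 0) ^ 2) (2 * min y 0) y := by
  rcases lt_trichotomy y 0 with h | h | h
  · have h1 : HasDerivAt (fun y : ℝ => y ^ 2) (2 * y) y := by simpa using hasDerivAt_pow 2 y
    have h2 : (fun y : ℝ => (min y 0) ^ 2) =ᶠ[𝓝 y] fun y => y ^ 2 := by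
      filter_upwards [eventually_lt_nhds h] with z hz
      rw [min_eq_left hz.le]
    rw [min_eq_left h.le]
    exact h1.congr_of_eventuallyEq h2
  · subst h
    simp only [min_self, mul_zero]
    have h1 : (fun y : ℝ => (min y 0) ^ 2) =O[𝓝 0] fun y : ℝ => ‖y - 0‖ ^ 2 := by
      apply Asymptotics.IsBigO.of_bound 1
      filter_upwards with z
      rw [one_mul, sub_zero, Real.norm_eq_abs, Real.norm_eq_abs, Real.norm_eq_abs, abs_pow,
        abs_pow, abs_abs]
      apply pow_le_pow_left₀ (abs_nonneg _)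
      rcases le_total z 0 with hz | hz
      · rw [min_eq_left hz]
      · rw [min_eq_right hz]; simp
    have h2 := Asymptotics.IsBigO.hasFDerivAt (𝕜 := ℝ) h1 one_lt_two
    have h3 := h2.hasDerivAt
    simpa using h3
  · have h2 : (fun y : ℝ => (min y 0) ^ 2) =ᶠ[𝓝 y] fun _ => (0 : ℝ) := by
      filter_upwards [eventually_gt_nhds h] with z hz
      rw [min_eq_right hz.le]; simp
    rw [min_eq_right h.le, mul_zero]
    exact (hasDerivAt_const y (0 : ℝ)).congr_of_eventuallyEq h2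

lemma min_mul_self (u : ℝ) : min u 0 * u = (min u 0) ^ 2 := by
  rcases le_total u 0 with h | h
  · rw [min_eq_left h]; ring
  · rw [min_eq_right h]; ring

/-- Quasi-monotone linear systems preserve the positive cone. -/
lemma kamke {u v p q r s : ℝ → ℝ} {a b K : ℝ} (hab : a ≤ b)
    (hu : ∀ x ∈ Icc a b, HasDerivAt u (p x * u x + q x * v x) x)
    (hv : ∀ x ∈ Icc a b, HasDerivAt v (r x * u x + s x * v x) x)
    (hq : ∀ x ∈ Icc a b, 0 ≤ q x) (hr : ∀ x ∈ Icc a b, 0 ≤ r x)
    (hp' : ∀ x ∈ Icc a b, p x ≤ K) (hq' : ∀ x ∈ Icc a b, q x ≤ K)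
    (hr' : ∀ x ∈ Icc a b, r x ≤ K) (hs' : ∀ x ∈ Icc a b, s x ≤ K)
    (hu0 : 0 ≤ u a) (hv0 : 0 ≤ v a) : 0 ≤ u b ∧ 0 ≤ v b := by
  have hd : ∀ x ∈ Icc a b, HasDerivAt
      (fun x => ((min (u x) 0) ^ 2 + (min (v x) 0) ^ 2) * Real.exp (-(4 * K * x)))
      ((2 * min (u x) 0 * (p x * u x + q x * v x) + 2 * min (v x) 0 * (r x * u x + s x * v x)) *
        Real.exp (-(4 * K * x)) +
        ((min (u x) 0) ^ 2 + (min (v x) 0) ^ 2) * (Real.exp (-(4 * K * x)) * (-(4 * K)))) x := by
    intro x hx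
    have h1 := (hasDerivAt_min_sq (u x)).comp x (hu x hx)
    have h2 := (hasDerivAt_min_sq (v x)).comp x (hv x hx)
    have h3 : HasDerivAt (fun x : ℝ => -(4 * K * x)) (-(4 * K)) x := by
      have := ((hasDerivAt_id x).const_mul (4 * K)).neg
      refine this.congr_deriv ?_
      ring
    exact (h1.add h2).mul h3.exp
  have key := le_of_deriv_nonpos hab hd (by
    intro x hx
    have hx' := Ioo_subset_Icc_self hx
    have hE := Real.exp_pos (-(4 * K * x))
    have hmu : min (u x) 0 ≤ 0 := min_le_right _ _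
    have hmv : min (v x) 0 ≤ 0 := min_le_right _ _
    have hu1 := min_mul_self (u x)
    have hv1 := min_mul_self (v x)
    have hu2 : min (u x) 0 ≤ u x := min_le_left _ _
    have hv2 : min (v x) 0 ≤ v x := min_le_left _ _
    have q0 := hq x hx'
    have r0 := hr x hx'
    have pK := hp' x hx'
    have qK := hq' x hx'
    have rK := hr' x hx'
    have sK := hs' x hx'
    generalize min (u x) 0 = m at *
    generalize min (v x) 0 = k at *
    have e1 : m * (p x * u x + q x * v x) ≤ K * m ^ 2 + K * (m * k) := by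
      have a1 : p x * m ^ 2 ≤ K * m ^ 2 := mul_le_mul_of_nonneg_right pK (sq_nonneg m)
      have a2 : m * v x ≤ m * k := mul_le_mul_of_nonpos_left hv2 hmu
      have a3 : 0 ≤ m * k := mul_nonneg_of_nonpos_of_nonpos hmu hmv
      have a4 : q x * (m * v x) ≤ q x * (m * k) := mul_le_mul_of_nonneg_left a2 q0
      have a5 : q x * (m * k) ≤ K * (m * k) := mul_le_mul_of_nonneg_right qK a3
      have a6 : m * (p x * u x + q x * v x) = p x * (m * u x) + q x * (m * v x) := by ring
      rw [a6, hu1]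
      linarith
    have e2 : k * (r x * u x + s x * v x) ≤ K * k ^ 2 + K * (m * k) := by
      have a1 : s x * k ^ 2 ≤ K * k ^ 2 := mul_le_mul_of_nonneg_right sK (sq_nonneg k)
      have a2 : k * u x ≤ k * m := mul_le_mul_of_nonpos_left hu2 hmv
      have a3 : 0 ≤ k * m := mul_nonneg_of_nonpos_of_nonpos hmv hmu
      have a4 : r x * (k * u x) ≤ r x * (k * m) := mul_le_mul_of_nonneg_left a2 r0
      have a5 : r x * (k * m) ≤ K * (k * m) := mul_le_mul_of_nonneg_right rK a3
      have a6 : k * (r x * u x + s x * v x) = r x * (k * u x) + s x * (k * v x) := by ring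
      rw [a6, hv1]
      linarith
    have hK : 0 ≤ K := q0.trans qK
    have e3 : 2 * m * (p x * u x + q x * v x) + 2 * k * (r x * u x + s x * v x) -
        4 * K * (m ^ 2 + k ^ 2) ≤ 0 := by
      have a7 : K * (2 * (m * k)) ≤ K * (m ^ 2 + k ^ 2) := by
        apply mul_le_mul_of_nonneg_left _ hK
        nlinarith [sq_nonneg (m - k)]
      nlinarith
    have e4 : (2 * m * (p x * u x + q x * v x) + 2 * k * (r x * u x + s x * v x)) *
        Real.exp (-(4 * K * x)) + (m ^ 2 + k ^ 2) * (Real.exp (-(4 * K * x)) * (-(4 * K)))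
        = (2 * m * (p x * u x + q x * v x) + 2 * k * (r x * u x + s x * v x) -
        4 * K * (m ^ 2 + k ^ 2)) * Real.exp (-(4 * K * x)) := by ring
    rw [e4]
    exact mul_nonpos_of_nonpos_of_nonneg e3 hE.le)
  rw [min_eq_right hu0, min_eq_right hv0] at key
  simp only [ne_eq, OfNat.ofNat_ne_zero, not_false_eq_true, zero_pow, add_zero, zero_mul] at key
  have hE := Real.exp_pos (-(4 * K * b))
  have h1 : (min (u b) 0) ^ 2 + (min (v b) 0) ^ 2 ≤ 0 := by
    by_contra hcon
    push Not at hcon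
    have := mul_pos hcon hE
    linarith
  have h2 : (min (u b) 0) ^ 2 = 0 := by nlinarith [sq_nonneg (min (u b) 0), sq_nonneg (min (v b) 0)]
  have h3 : (min (v b) 0) ^ 2 = 0 := by nlinarith [sq_nonneg (min (u b) 0), sq_nonneg (min (v b) 0)]
  have h4 : min (u b) 0 = 0 := by simpa using h2
  have h5 : min (v b) 0 = 0 := by simpa using h3
  exact ⟨min_eq_right_iff.mp h4, min_eq_right_iff.mp h5⟩

variable {κ μ : ℝ} {n : ℕ} {C S : ℝ}

lemma eR_zero (h : Decay κ μ n C S) : eR κ μ n 0 = 1 := by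
  have := E0_zero h
  unfold eR
  rw [Complex.ofReal_zero, this, Complex.one_re]

lemma hR_zero (h : Decay κ μ n C S) : hR κ μ n 0 = -(κ / μ) := by
  have := H0_zero h
  unfold hR
  rw [Complex.ofReal_zero, this]
  have e : (-((κ : ℂ) / μ)) = ((-(κ / μ) : ℝ) : ℂ) := by push_cast; ring
  rw [e, Complex.ofReal_re]

lemma eR_cont (h : Decay κ μ n C S) : Continuous (eR κ μ n) :=
  continuous_iff_continuousAt.mpr fun x => (h.hasDerivAt_eR x).continuousAt

lemma hR_cont (h : Decay κ μ n C S) : Continuous (hR κ μ n) :=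
  continuous_iff_continuousAt.mpr fun x => (h.hasDerivAt_hR x).continuousAt

/-- Positivity at `1`. -/
theorem pos_one (hκ : 0 < κ) (hμ : κ < μ) (h : Decay κ μ n C S) :
    0 < eR κ μ n 1 ∧ 0 < eR κ μ n 1 ^ 2 - hR κ μ n 1 ^ 2 := by
  have hμ0 : 0 < μ := by linarith
  set P : ℝ → ℝ := fun x => eR κ μ n x + hR κ μ n x with hP
  set N : ℝ → ℝ := fun x => -hR κ μ n x with hN
  have hPc : Continuous P := (eR_cont h).add (hR_cont h)
  have hNc : Continuous N := (hR_cont h).neg
  have hP0 : 0 < P 0 := by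
    simp only [hP]
    rw [eR_zero h, hR_zero h]
    have : κ / μ < 1 := by rw [div_lt_one hμ0]; exact hμ
    linarith
  have hN0 : 0 < N 0 := by
    simp only [hN]
    rw [hR_zero h, neg_neg]
    positivity
  -- small δ
  obtain ⟨δ, hδ0, hδ1, hPδ, hNδ⟩ : ∃ δ : ℝ, 0 < δ ∧ δ < 1 ∧ 0 < P δ ∧ 0 < N δ := by
    have h1 : ∀ᶠ x in 𝓝[>] (0 : ℝ), 0 < P x ∧ 0 < N x ∧ x < 1 := by
      apply Filter.Eventually.filter_mono nhdsWithin_le_nhds
      exact ((hPc.tendsto 0).eventually (eventually_gt_nhds hP0)).and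
        (((hNc.tendsto 0).eventually (eventually_gt_nhds hN0)).and (eventually_lt_nhds one_pos))
    obtain ⟨δ, ⟨h2, h3, h4⟩, h5⟩ := (h1.and self_mem_nhdsWithin).exists
    exact ⟨δ, h5, h4, h2, h3⟩
  set K : ℝ := (2 * (μ + κ) + (n + 1)) / δ ^ 2 with hK
  have hn0 : (0 : ℝ) ≤ n := Nat.cast_nonneg n
  have hPd : ∀ x, x ≠ 0 → HasDerivAt P ((μ * x ^ 2 - κ) / x ^ 2 * P x +
      ((μ - κ) * (1 + x ^ 2) + (n + 1) * x) / x ^ 2 * N x) x := by
    intro x hx
    have h1 := (h.hasDerivAt_eR x).add (h.hasDerivAt_hR x)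
    refine h1.congr_deriv ?_
    have h2 := h.ode_hR hμ0 x
    simp only [hP, hN]
    field_simp
    linear_combination h2
  have hNd : ∀ x, x ≠ 0 → HasDerivAt N (κ / x ^ 2 * P x +
      -(((n : ℝ) + 1) * x + (μ - κ)) / x ^ 2 * N x) x := by
    intro x hx
    have h1 := (h.hasDerivAt_hR x).neg
    refine h1.congr_deriv ?_
    have h2 := h.ode_hR hμ0 x
    simp only [hP, hN]
    field_simp
    linear_combination -h2
  have hbd : ∀ x ∈ Icc δ 1, ∀ y, y ≤ 2 * (μ + κ) + (n + 1) → y / x ^ 2 ≤ K := by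
    intro x hx y hy
    have hx2 : δ ^ 2 ≤ x ^ 2 := pow_le_pow_left₀ hδ0.le hx.1 2
    calc y / x ^ 2 ≤ (2 * (μ + κ) + (n + 1)) / x ^ 2 :=
          div_le_div_of_nonneg_right hy (sq_nonneg x)
      _ ≤ K := div_le_div_of_nonneg_left (by positivity) (by positivity) hx2
  have hpos : ∀ b ∈ Icc δ 1, 0 ≤ P b ∧ 0 ≤ N b := by
    intro b hb
    have hsub : ∀ x ∈ Icc δ b, x ∈ Icc δ 1 := fun x hx => ⟨hx.1, hx.2.trans hb.2⟩
    have hne : ∀ x ∈ Icc δ b, x ≠ 0 := fun x hx => (lt_of_lt_of_le hδ0 hx.1).ne'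
    apply kamke (K := K) hb.1 (fun x hx => hPd x (hne x hx)) (fun x hx => hNd x (hne x hx))
      _ _ _ _ _ _ hPδ.le hNδ.le
    · intro x hx
      have : 0 ≤ x := hδ0.le.trans hx.1
      have : 0 ≤ μ - κ := by linarith
      positivity
    · intro x hx
      positivity
    · intro x hx
      apply hbd x (hsub x hx)
      have hx0 : 0 ≤ x := hδ0.le.trans hx.1
      have hx1 : x ≤ 1 := hx.2.trans hb.2
      nlinarith [mul_le_mul_of_nonneg_left (pow_le_one₀ hx0 hx1 : x ^ 2 ≤ 1) hμ0.le]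
    · intro x hx
      apply hbd x (hsub x hx)
      have hx0 : 0 ≤ x := hδ0.le.trans hx.1
      have hx1 : x ≤ 1 := hx.2.trans hb.2
      have h5 : (μ - κ) * x ^ 2 ≤ μ - κ := by
        have : x ^ 2 ≤ 1 := pow_le_one₀ hx0 hx1
        nlinarith
      have h6 : ((n : ℝ) + 1) * x ≤ n + 1 := by nlinarith
      linarith
    · intro x hx
      apply hbd x (hsub x hx)
      linarith
    · intro x hx
      apply hbd x (hsub x hx)
      have hx0 : 0 ≤ x := hδ0.le.trans hx.1
      have : 0 ≤ ((n : ℝ) + 1) * x := by positivity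
      linarith
  -- strict positivity of P at 1
  have hKpos : 0 ≤ K := by rw [hK]; positivity
  have hPd1 := le_of_deriv_nonpos (s := δ) (t := 1) hδ1.le
    (f := fun x => -(P x * Real.exp (K * x)))
    (f' := fun x => -(((μ * x ^ 2 - κ) / x ^ 2 * P x +
      ((μ - κ) * (1 + x ^ 2) + (n + 1) * x) / x ^ 2 * N x) * Real.exp (K * x) +
        P x * (Real.exp (K * x) * K)))
    (by
      intro x hx
      have h1 := hPd x (lt_of_lt_of_le hδ0 hx.1).ne'
      have h3 : HasDerivAt (fun x : ℝ => K * x) K x := by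
        have := (hasDerivAt_id x).const_mul K
        refine this.congr_deriv ?_
        ring
      exact (h1.mul h3.exp).neg)
    (by
      intro x hx
      have hx' := Ioo_subset_Icc_self hx
      obtain ⟨hPx, hNx⟩ := hpos x hx'
      have hx0 : 0 < x := lt_of_lt_of_le hδ0 hx'.1
      have hE := Real.exp_pos (K * x)
      have h1 : -K ≤ (μ * x ^ 2 - κ) / x ^ 2 := by
        have h5 := hbd x hx' κ (by linarith)
        have h6 : (μ * x ^ 2 - κ) / x ^ 2 = μ - κ / x ^ 2 := by field_simp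
        rw [h6]
        linarith
      have h2 : 0 ≤ ((μ - κ) * (1 + x ^ 2) + (n + 1) * x) / x ^ 2 * N x := by
        have : 0 ≤ μ - κ := by linarith
        positivity
      have h3 : 0 ≤ ((μ * x ^ 2 - κ) / x ^ 2 + K) * P x := mul_nonneg (by linarith) hPx
      have h4 : ((μ * x ^ 2 - κ) / x ^ 2 * P x +
        ((μ - κ) * (1 + x ^ 2) + (n + 1) * x) / x ^ 2 * N x) * Real.exp (K * x) +
        P x * (Real.exp (K * x) * K) = (((μ * x ^ 2 - κ) / x ^ 2 + K) * P x +
        ((μ - κ) * (1 + x ^ 2) + (n + 1) * x) / x ^ 2 * N x) * Real.exp (K * x) := by ring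
      rw [h4]
      have := mul_nonneg (add_nonneg h3 h2) hE.le
      linarith)
  have hP1 : 0 < P 1 := by
    have h1 : 0 < P δ * Real.exp (K * δ) := by positivity
    have h2 : 0 < P 1 * Real.exp (K * 1) := by linarith
    exact (mul_pos_iff_of_pos_right (Real.exp_pos _)).mp h2
  have hN1 := (hpos 1 ⟨hδ1.le, le_rfl⟩).2
  simp only [hP, hN] at hP1 hN1
  constructor
  · linarith
  · nlinarith

/-- Positivity at `-1`. -/
theorem pos_neg_one (hκ : 0 < κ) (hμ : n + 2 * κ < 2 * μ) (h : Decay κ μ n C S)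
    (hD : 0 < eR κ μ n (-1) ^ 2 - hR κ μ n (-1) ^ 2) : 0 < eR κ μ n (-1) := by
  have hn0 : (0 : ℝ) ≤ n := Nat.cast_nonneg n
  have hμ0 : 0 < μ := by linarith
  by_contra hcon
  push Not at hcon
  set e : ℝ → ℝ := fun y => eR κ μ n (-y) with he
  set g : ℝ → ℝ := fun y => hR κ μ n (-y) with hg
  have hed : ∀ y, HasDerivAt e (-(μ * e y + κ * g y)) y := by
    intro y
    have h1 := (h.hasDerivAt_eR (-y)).comp y (hasDerivAt_neg y)
    refine h1.congr_deriv ?_
    simp only [he, hg]; ring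
  have hgd : ∀ y, HasDerivAt g (-(hR' κ μ n (-y))) y := by
    intro y
    have h1 := (h.hasDerivAt_hR (-y)).comp y (hasDerivAt_neg y)
    refine h1.congr_deriv ?_
    ring
  have hec : Continuous e := (eR_cont h).comp continuous_neg
  have he0 : e 0 = 1 := by simp only [he, neg_zero]; exact eR_zero h
  -- least zero
  have hZ : IsCompact (Icc (0 : ℝ) 1 ∩ {y | e y = 0}) :=
    isCompact_Icc.inter_right (isClosed_eq hec continuous_const)
  have hZne : (Icc (0 : ℝ) 1 ∩ {y | e y = 0}).Nonempty := by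
    have := intermediate_value_Icc' (zero_le_one) hec.continuousOn (a := (0 : ℝ)) (b := 1)
    obtain ⟨y, hy, hy'⟩ := this (show (0 : ℝ) ∈ Icc (e 1) (e 0) from
      ⟨hcon, by rw [he0]; exact zero_le_one⟩)
    exact ⟨y, hy, hy'⟩
  obtain ⟨hy₀I, hy₀⟩ := hZ.sInf_mem hZne
  set y₀ := sInf (Icc (0 : ℝ) 1 ∩ {y | e y = 0}) with hy₀def
  have hy₀z : e y₀ = 0 := hy₀
  have hy₀pos : 0 < y₀ := by
    rcases lt_or_eq_of_le hy₀I.1 with h1 | h1
    · exact h1
    · rw [← h1, he0] at hy₀z; exact absurd hy₀z one_ne_zero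
  have hbefore : ∀ y ∈ Ico 0 y₀, 0 < e y := by
    intro y hy
    by_contra hc
    push Not at hc
    obtain ⟨w, hw, hw'⟩ := intermediate_value_Icc' hy.1 hec.continuousOn
      (show (0 : ℝ) ∈ Icc (e y) (e 0) from ⟨hc, by rw [he0]; exact zero_le_one⟩)
    have hwmem : w ∈ Icc (0 : ℝ) 1 ∩ {y | e y = 0} :=
      ⟨⟨hw.1, hw.2.trans (hy.2.le.trans hy₀I.2)⟩, hw'⟩
    have := csInf_le hZ.bddBelow hwmem
    exact absurd (hw.2.trans_lt hy.2) (not_lt.mpr this)
  have hgy₀ : 0 ≤ g y₀ := by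
    by_contra hc
    push Not at hc
    have hder := hed y₀
    rw [hy₀z] at hder
    have hdpos : deriv e y₀ > 0 := by
      rw [hder.deriv]
      nlinarith
    have hev := eventually_nhdsWithin_sign_eq_of_deriv_pos hdpos hy₀z
    have hev2 : ∀ᶠ y in 𝓝[<] y₀, SignType.sign (e y) = SignType.sign (y - y₀) :=
      hev.filter_mono nhdsWithin_le_nhds
    have hev3 : ∀ᶠ y in 𝓝[<] y₀, 0 < y :=
      (eventually_gt_nhds hy₀pos).filter_mono nhdsWithin_le_nhds
    obtain ⟨y, ⟨h1, h2⟩, h3⟩ := ((hev2.and hev3).and self_mem_nhdsWithin).exists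
    have h4 : 0 < e y := hbefore y ⟨h2.le, h3⟩
    have h5 : y - y₀ < 0 := sub_neg.mpr h3
    rw [sign_pos h4, sign_neg h5] at h1
    exact absurd h1 (by decide)
  -- the system on [y₀, 1]
  set K : ℝ := (2 * μ + κ) / y₀ ^ 2 + μ / y₀ ^ 2 + κ / y₀ ^ 2 with hK
  have hnd : ∀ y, y ≠ 0 → HasDerivAt (fun y => -e y)
      ((κ / y - μ) * (-e y) + κ / y * (e y + y * g y)) y := by
    intro y hy
    refine (hed y).neg.congr_deriv ?_
    field_simp
    ring
  have hZd : ∀ y, y ≠ 0 → HasDerivAt (fun y => e y + y * g y)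
      ((μ * (y + 1 / y) - 2 * κ - n) / y * (-e y) +
        ((μ / y - κ - n) / y) * (e y + y * g y)) y := by
    intro y hy
    refine ((hed y).add ((hasDerivAt_id y).mul (hgd y))).congr_deriv ?_
    have h2 := h.ode_hR hμ0 (-y)
    simp only [id]
    have h3 : y ^ 2 * hR' κ μ n (-y) = -(((n : ℝ) + 1) * (-y) + μ) * g y - κ * e y := by
      rw [← neg_sq]; exact h2
    field_simp
    linear_combination (-y) * h3
  have hfin := kamke (K := K) (a := y₀) (b := 1) hy₀I.2
    (fun y hy => hnd y (lt_of_lt_of_le hy₀pos hy.1).ne')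
    (fun y hy => hZd y (lt_of_lt_of_le hy₀pos hy.1).ne')
    (fun y hy => by
      have : 0 < y := lt_of_lt_of_le hy₀pos hy.1
      positivity)
    (fun y hy => by
      have hy0 : 0 < y := lt_of_lt_of_le hy₀pos hy.1
      apply div_nonneg _ hy0.le
      have h1 : 2 ≤ y + 1 / y := by
        have : y + 1 / y - 2 = (y - 1) ^ 2 / y := by field_simp; ring
        have h2 : 0 ≤ (y - 1) ^ 2 / y := by positivity
        linarith
      nlinarith)
    (fun y hy => by
      have hy0 : 0 < y := lt_of_lt_of_le hy₀pos hy.1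
      have h1 : κ / y ≤ κ / y₀ ^ 2 := by
        apply div_le_div_of_nonneg_left hκ.le (by positivity)
        nlinarith [hy.1, hy₀I.2, hy₀I.1]
      have h2 : 0 ≤ (2 * μ + κ) / y₀ ^ 2 := by positivity
      have h3 : 0 ≤ μ / y₀ ^ 2 := by positivity
      rw [hK]; linarith)
    (fun y hy => by
      have hy0 : 0 < y := lt_of_lt_of_le hy₀pos hy.1
      have h1 : κ / y ≤ κ / y₀ ^ 2 := by
        apply div_le_div_of_nonneg_left hκ.le (by positivity)
        nlinarith [hy.1, hy₀I.2, hy₀I.1]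
      have h2 : 0 ≤ (2 * μ + κ) / y₀ ^ 2 := by positivity
      have h3 : 0 ≤ μ / y₀ ^ 2 := by positivity
      rw [hK]; linarith)
    (fun y hy => by
      have hy0 : 0 < y := lt_of_lt_of_le hy₀pos hy.1
      have h1 : (μ * (y + 1 / y) - 2 * κ - n) / y ≤ (2 * μ + κ) / y₀ ^ 2 := by
        have hy2 : y₀ ^ 2 ≤ y ^ 2 := pow_le_pow_left₀ hy₀pos.le hy.1 2
        calc (μ * (y + 1 / y) - 2 * κ - n) / y ≤ (μ * (y + 1 / y)) / y := by
              apply div_le_div_of_nonneg_right _ hy0.le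
              linarith
          _ = (μ * (y ^ 2 + 1)) / y ^ 2 := by field_simp
          _ ≤ (2 * μ + κ) / y ^ 2 := by
              apply div_le_div_of_nonneg_right _ (by positivity)
              nlinarith [pow_le_one₀ hy0.le hy.2 (n := 2)]
          _ ≤ (2 * μ + κ) / y₀ ^ 2 :=
              div_le_div_of_nonneg_left (by positivity) (by positivity) hy2
      have h2 : 0 ≤ κ / y₀ ^ 2 := by positivity
      have h3 : 0 ≤ μ / y₀ ^ 2 := by positivity
      rw [hK]; linarith)
    (fun y hy => by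
      have hy0 : 0 < y := lt_of_lt_of_le hy₀pos hy.1
      have hy2 : y₀ ^ 2 ≤ y ^ 2 := pow_le_pow_left₀ hy₀pos.le hy.1 2
      have h1 : (μ / y - κ - n) / y ≤ μ / y₀ ^ 2 := by
        calc (μ / y - κ - n) / y ≤ (μ / y) / y := by
              apply div_le_div_of_nonneg_right _ hy0.le
              linarith
          _ = μ / y ^ 2 := by field_simp
          _ ≤ μ / y₀ ^ 2 := div_le_div_of_nonneg_left hμ0.le (by positivity) hy2
      have h2 : 0 ≤ κ / y₀ ^ 2 := by positivity
      have h3 : 0 ≤ (2 * μ + κ) / y₀ ^ 2 := by positivity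
      rw [hK]; linarith)
    (by rw [hy₀z]; simp) (by rw [hy₀z, zero_add]; positivity)
  obtain ⟨h1, h2⟩ := hfin
  simp only [he, hg, one_mul] at h1 h2
  nlinarith

end Pool.Agent.T6.H45.Jos
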