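import Mathlib
import Pool.Agent.Helper749.ConeOde

set_option autoImplicit false

/-! # The Josephson equation `x' = l + m cos τ - a sin x`: basic facts -/

namespace Pool.Agent.T6.H45.Jos

open Filter Topology Set NNReal

/-- The field of the (rescaled) overdamped Josephson junction equation. -/
noncomputable def fld (l m a τ x : ℝ) : ℝ := l + m * Real.cos τ - a * Real.sin x

/-- `x` is a solution on the whole line. -/
def IsSol (l m a : ℝ) (x : ℝ → ℝ) : Prop := ∀ τ, HasDerivAt x (fld l m a τ (x τ)) τ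

lemma abs_sin_sub_sin_le (x y : ℝ) : |Real.sin x - Real.sin y| ≤ |x - y| := by
  have h := Real.abs_sin_sub_sin_le x y
  exact h

lemma fld_lip (l m a τ : ℝ) : LipschitzWith (Real.toNNReal |a|) (fld l m a τ) := by
  apply LipschitzWith.of_dist_le_mul
  intro x y
  rw [Real.dist_eq, Real.dist_eq, Real.coe_toNNReal _ (abs_nonneg a)]
  have : fld l m a τ x - fld l m a τ y = -(a * (Real.sin x - Real.sin y)) := by
    unfold fld; ring
  rw [this, abs_neg, abs_mul]
  exact mul_le_mul_of_nonneg_left (abs_sin_sub_sin_le x y) (abs_nonneg a)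

lemma fld_bound (l m a τ x : ℝ) : |fld l m a τ x| ≤ |l| + |m| + |a| := by
  unfold fld
  have h1 : |m * Real.cos τ| ≤ |m| := by
    rw [abs_mul]
    exact mul_le_of_le_one_right (abs_nonneg m) (Real.abs_cos_le_one τ)
  have h2 : |a * Real.sin x| ≤ |a| := by
    rw [abs_mul]
    exact mul_le_of_le_one_right (abs_nonneg a) (Real.abs_sin_le_one x)
  have h3 := abs_sub (l + m * Real.cos τ) (a * Real.sin x)
  have h4 := abs_add_le l (m * Real.cos τ)
  linarith

/-- Existence of a global solution through any point. -/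
theorem exists_sol (l m a τ₀ ξ : ℝ) : ∃ x : ℝ → ℝ, IsSol l m a x ∧ x τ₀ = ξ := by
  obtain ⟨α, h0, hα⟩ := Pool.Agent.Helper749.ConeOde.exists_global
    (fun t x => fld l m a (t + τ₀) x)
    (by intro x; unfold fld; fun_prop)
    (Real.toNNReal |a|) (Real.toNNReal (|l| + |m| + |a|))
    (fun t => fld_lip l m a (t + τ₀))
    (by
      intro t x
      rw [Real.coe_toNNReal _ (by positivity)]
      exact fld_bound _ _ _ _ _) ξ
  refine ⟨fun τ => α (τ - τ₀), ?_, by simp [h0]⟩
  intro τ
  have h1 := hα (τ - τ₀)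
  simp only [sub_add_cancel] at h1
  exact HasDerivAt.comp_sub_const τ τ₀ h1

/-- Comparison forward in time. -/
theorem IsSol.mono {l m a : ℝ} {x y : ℝ → ℝ} (hx : IsSol l m a x) (hy : IsSol l m a y) {s : ℝ}
    (h : x s ≤ y s) : ∀ t, s ≤ t → x t ≤ y t :=
  Pool.Agent.Helper749.ConeOde.comparison (fun t x => fld l m a t x) (Real.toNNReal |a|)
    (fun t => fld_lip l m a t) (fun t _ => hx t) (fun t _ => hy t) (fun _ _ => le_rfl)
    (fun _ _ => le_rfl) h

/-- Uniqueness. -/
theorem IsSol.unique {l m a : ℝ} {x y : ℝ → ℝ} (hx : IsSol l m a x) (hy : IsSol l m a y) {s : ℝ}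
    (h : x s = y s) : x = y :=
  ODE_solution_unique_univ (v := fun t x => fld l m a t x) (s := fun _ => univ)
    (K := Real.toNNReal |a|) (t₀ := s)
    (fun t => (fld_lip l m a t).lipschitzOnWith) (fun t => ⟨hx t, trivial⟩)
    (fun t => ⟨hy t, trivial⟩) h

/-- Adding a multiple of `2π`. -/
theorem IsSol.add_int {l m a : ℝ} {x : ℝ → ℝ} (hx : IsSol l m a x) (k : ℤ) :
    IsSol l m a (fun τ => x τ + k * (2 * Real.pi)) := by
  intro τ
  have h := (hx τ).add_const ((k : ℝ) * (2 * Real.pi))
  have e : fld l m a τ (x τ + k * (2 * Real.pi)) = fld l m a τ (x τ) := by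
    unfold fld
    rw [Real.sin_add_int_mul_two_pi]
  change HasDerivAt _ (fld l m a τ (x τ + k * (2 * Real.pi))) τ
  rw [e]
  exact h

/-- Translating time by a period. -/
theorem IsSol.shift {l m a : ℝ} {x : ℝ → ℝ} (hx : IsSol l m a x) :
    IsSol l m a (fun τ => x (τ + 2 * Real.pi)) := by
  intro τ
  have h1 := hx (τ + 2 * Real.pi)
  have e : fld l m a (τ + 2 * Real.pi) (x (τ + 2 * Real.pi))
      = fld l m a τ (x (τ + 2 * Real.pi)) := by
    unfold fld
    rw [Real.cos_add_two_pi]
  change HasDerivAt _ (fld l m a τ (x (τ + 2 * Real.pi))) τ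
  rw [← e]
  exact HasDerivAt.comp_add_const τ (2 * Real.pi) h1

theorem IsSol.continuous {l m a : ℝ} {x : ℝ → ℝ} (hx : IsSol l m a x) : Continuous x :=
  continuous_iff_continuousAt.mpr fun t => (hx t).continuousAt

/-- The solution with initial value `ξ` at time `0`. -/
noncomputable def sol (l m a ξ : ℝ) : ℝ → ℝ := Classical.choose (exists_sol l m a 0 ξ)

theorem sol_isSol (l m a ξ : ℝ) : IsSol l m a (sol l m a ξ) :=
  (Classical.choose_spec (exists_sol l m a 0 ξ)).1

theorem sol_zero (l m a ξ : ℝ) : sol l m a ξ 0 = ξ :=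
  (Classical.choose_spec (exists_sol l m a 0 ξ)).2

/-- Quantitative dependence on parameter and initial value. -/
theorem sol_dist {l a : ℝ} (ha : 0 < a) {m m' : ℝ} {x y : ℝ → ℝ} (hx : IsSol l m a x)
    (hy : IsSol l m' a y) (t : ℝ) (ht : 0 ≤ t) :
    |x t - y t| ≤ |x 0 - y 0| * Real.exp (a * t) + |m - m'| / a * (Real.exp (a * t) - 1) := by
  have key := dist_le_of_approx_trajectories_ODE (v := fun t x => fld l m a t x)
    (K := Real.toNNReal |a|) (f := x) (g := y) (f' := fun t => fld l m a t (x t))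
    (g' := fun t => fld l m' a t (y t)) (a := 0) (b := t) (εf := 0) (εg := |m - m'|)
    (δ := |x 0 - y 0|)
    (fun t => fld_lip l m a t) hx.continuous.continuousOn
    (fun t _ => (hx t).hasDerivWithinAt) (fun t _ => by simp)
    hy.continuous.continuousOn (fun t _ => (hy t).hasDerivWithinAt)
    (fun t _ => by
      rw [Real.dist_eq]
      have : fld l m' a t (y t) - fld l m a t (y t) = -((m - m') * Real.cos t) := by
        unfold fld; ring
      rw [this, abs_neg, abs_mul]
      exact mul_le_of_le_one_right (abs_nonneg _) (Real.abs_cos_le_one t))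
    (by rw [Real.dist_eq]) t ⟨ht, le_rfl⟩
  rw [Real.dist_eq, Real.coe_toNNReal _ (abs_nonneg a), abs_of_pos ha,
    gronwallBound_of_K_ne_0 ha.ne'] at key
  simpa using key

/-- The displacement over one period. -/
noncomputable def disp (l m a ξ : ℝ) : ℝ := sol l m a ξ (2 * Real.pi) - ξ

theorem continuous_sol_period {l a : ℝ} (ha : 0 < a) :
    Continuous (fun p : ℝ × ℝ => disp l p.1 a p.2) := by
  have h : Continuous (fun p : ℝ × ℝ => sol l p.1 a p.2 (2 * Real.pi)) := by
    rw [continuous_iff_continuousAt]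
    intro p
    rw [ContinuousAt, tendsto_iff_dist_tendsto_zero]
    have hb : ∀ q : ℝ × ℝ, dist (sol l q.1 a q.2 (2 * Real.pi)) (sol l p.1 a p.2 (2 * Real.pi)) ≤
        |q.2 - p.2| * Real.exp (a * (2 * Real.pi)) +
          |q.1 - p.1| / a * (Real.exp (a * (2 * Real.pi)) - 1) := by
      intro q
      have := sol_dist ha (sol_isSol l q.1 a q.2) (sol_isSol l p.1 a p.2) (2 * Real.pi)
        (by positivity)
      rw [sol_zero, sol_zero] at this
      rw [Real.dist_eq]
      exact this
    refine squeeze_zero (fun _ => dist_nonneg) hb ?_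
    have hc : Continuous (fun q : ℝ × ℝ => |q.2 - p.2| * Real.exp (a * (2 * Real.pi)) +
          |q.1 - p.1| / a * (Real.exp (a * (2 * Real.pi)) - 1)) := by fun_prop
    have := hc.tendsto p
    simpa using this
  unfold disp
  exact h.sub continuous_snd

theorem disp_add_int (l m a ξ : ℝ) (k : ℤ) :
    disp l m a (ξ + k * (2 * Real.pi)) = disp l m a ξ := by
  have h : sol l m a (ξ + k * (2 * Real.pi)) = fun τ => sol l m a ξ τ + k * (2 * Real.pi) := by
    apply IsSol.unique (s := 0) (sol_isSol l m a _) ((sol_isSol l m a ξ).add_int k)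
    simp [sol_zero]
  unfold disp
  rw [h]
  ring

/-- For an arbitrary solution, the increment over `[0,2π]` is the displacement. -/
theorem IsSol.eq_disp {l m a : ℝ} {x : ℝ → ℝ} (hx : IsSol l m a x) :
    x (2 * Real.pi) = x 0 + disp l m a (x 0) := by
  have h : x = sol l m a (x 0) := IsSol.unique (s := 0) hx (sol_isSol l m a _) (by rw [sol_zero])
  unfold disp
  rw [← h]
  ring

theorem IsSol.shift_nat {l m a : ℝ} {x : ℝ → ℝ} (hx : IsSol l m a x) (k : ℕ) :
    IsSol l m a (fun τ => x (τ + k * (2 * Real.pi))) := by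
  induction k with
  | zero => simpa using hx
  | succ k ih =>
    have := ih.shift
    convert this using 2 with τ
    push_cast
    ring_nf

/-- If the displacement is bounded below by `d` everywhere then the average slope is at least
`d/(2π)`. -/
theorem IsSol.ge_of_disp {l m a d : ℝ} (hd : ∀ ξ, d ≤ disp l m a ξ) {x : ℝ → ℝ}
    (hx : IsSol l m a x) (k : ℕ) : x 0 + k * d ≤ x (k * (2 * Real.pi)) := by
  induction k with
  | zero => simp
  | succ k ih =>
    have h := (hx.shift_nat k).eq_disp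
    simp only [zero_add] at h
    have e : ((k + 1 : ℕ) : ℝ) * (2 * Real.pi) = 2 * Real.pi + k * (2 * Real.pi) := by
      push_cast; ring
    rw [e, h]
    have := hd (x (k * (2 * Real.pi)))
    push_cast
    linarith

theorem IsSol.le_of_disp {l m a d : ℝ} (hd : ∀ ξ, disp l m a ξ ≤ d) {x : ℝ → ℝ}
    (hx : IsSol l m a x) (k : ℕ) : x (k * (2 * Real.pi)) ≤ x 0 + k * d := by
  induction k with
  | zero => simp
  | succ k ih =>
    have h := (hx.shift_nat k).eq_disp
    simp only [zero_add] at h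
    have e : ((k + 1 : ℕ) : ℝ) * (2 * Real.pi) = 2 * Real.pi + k * (2 * Real.pi) := by
      push_cast; ring
    rw [e, h]
    have := hd (x (k * (2 * Real.pi)))
    push_cast
    linarith

/-- Every real is congruent mod `2π` to a point of `[0,2π]`. -/
lemma exists_rep (ξ : ℝ) : ∃ k : ℤ, ∃ η ∈ Icc (0 : ℝ) (2 * Real.pi), ξ = η + k * (2 * Real.pi) := by
  have hp : (0 : ℝ) < 2 * Real.pi := by positivity
  refine ⟨⌊ξ / (2 * Real.pi)⌋, ξ - ⌊ξ / (2 * Real.pi)⌋ * (2 * Real.pi), ⟨?_, ?_⟩, by ring⟩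
  · have := Int.floor_le (ξ / (2 * Real.pi))
    rw [le_div_iff₀ hp] at this
    linarith
  · have := (Int.lt_floor_add_one (ξ / (2 * Real.pi))).le
    rw [div_le_iff₀ hp] at this
    linarith

/-- The displacement attains its minimum and maximum. -/
theorem disp_exists_min {l a : ℝ} (ha : 0 < a) (m : ℝ) :
    ∃ ξ₀, ∀ ξ, disp l m a ξ₀ ≤ disp l m a ξ := by
  have hc : Continuous (fun ξ => disp l m a ξ) :=
    (continuous_sol_period ha).comp (by fun_prop : Continuous fun ξ : ℝ => (m, ξ))
  obtain ⟨ξ₀, -, h⟩ := isCompact_Icc.exists_isMinOn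
    (s := Icc (0 : ℝ) (2 * Real.pi)) ⟨0, by constructor <;> positivity⟩ hc.continuousOn
  refine ⟨ξ₀, fun ξ => ?_⟩
  obtain ⟨k, η, hη, e⟩ := exists_rep ξ
  rw [e, disp_add_int]
  exact h hη

theorem disp_exists_max {l a : ℝ} (ha : 0 < a) (m : ℝ) :
    ∃ ξ₀, ∀ ξ, disp l m a ξ ≤ disp l m a ξ₀ := by
  have hc : Continuous (fun ξ => disp l m a ξ) :=
    (continuous_sol_period ha).comp (by fun_prop : Continuous fun ξ : ℝ => (m, ξ))
  obtain ⟨ξ₀, -, h⟩ := isCompact_Icc.exists_isMaxOn
    (s := Icc (0 : ℝ) (2 * Real.pi)) ⟨0, by constructor <;> positivity⟩ hc.continuousOn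
  refine ⟨ξ₀, fun ξ => ?_⟩
  obtain ⟨k, η, hη, e⟩ := exists_rep ξ
  rw [e, disp_add_int]
  exact h hη

/-- From the rotation number to a periodic solution: if some solution has `x τ / τ → n` then some
point has displacement exactly `2πn`. -/
theorem exists_disp_eq {l m a : ℝ} (ha : 0 < a) {x : ℝ → ℝ} (hx : IsSol l m a x) (n : ℝ)
    (h : Tendsto (fun τ => x τ / τ) atTop (𝓝 n)) :
    ∃ ξ, disp l m a ξ = 2 * Real.pi * n := by
  have hp : (0 : ℝ) < 2 * Real.pi := by positivity
  have hc : Continuous (fun ξ => disp l m a ξ) :=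
    (continuous_sol_period ha).comp (by fun_prop : Continuous fun ξ : ℝ => (m, ξ))
  obtain ⟨ξ₀, h0⟩ := disp_exists_min (l := l) ha m
  obtain ⟨ξ₁, h1⟩ := disp_exists_max (l := l) ha m
  -- the sequence x(2πk)/(2πk)
  have hseq : Tendsto (fun k : ℕ => x (k * (2 * Real.pi)) / (k * (2 * Real.pi))) atTop (𝓝 n) := by
    have : Tendsto (fun k : ℕ => (k : ℝ) * (2 * Real.pi)) atTop atTop :=
      tendsto_natCast_atTop_atTop.atTop_mul_const hp
    exact h.comp this
  have hz : ∀ c d : ℝ, Tendsto (fun k : ℕ => (c + k * d) / (k * (2 * Real.pi))) atTop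
      (𝓝 (d / (2 * Real.pi))) := by
    intro c d
    have h1 : Tendsto (fun k : ℕ => c / (2 * Real.pi) / (k : ℝ) + d / (2 * Real.pi)) atTop
        (𝓝 (0 + d / (2 * Real.pi))) :=
      (tendsto_const_div_atTop_nhds_zero_nat _).add tendsto_const_nhds
    rw [zero_add] at h1
    refine h1.congr' ?_
    filter_upwards [eventually_gt_atTop 0] with k hk
    have hk' : (k : ℝ) ≠ 0 := by exact_mod_cast hk.ne'
    field_simp
  have hlow : disp l m a ξ₀ ≤ 2 * Real.pi * n := by
    have := le_of_tendsto_of_tendsto (hz (x 0) (disp l m a ξ₀)) hseq (by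
      filter_upwards [eventually_gt_atTop 0] with k hk
      have hk' : (0 : ℝ) < k := by exact_mod_cast hk
      exact div_le_div_of_nonneg_right (IsSol.ge_of_disp h0 hx k) (by positivity))
    rw [div_le_iff₀ hp] at this
    linarith
  have hup : 2 * Real.pi * n ≤ disp l m a ξ₁ := by
    have := le_of_tendsto_of_tendsto hseq (hz (x 0) (disp l m a ξ₁)) (by
      filter_upwards [eventually_gt_atTop 0] with k hk
      have hk' : (0 : ℝ) < k := by exact_mod_cast hk
      exact div_le_div_of_nonneg_right (IsSol.le_of_disp h1 hx k) (by positivity))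
    rw [le_div_iff₀ hp] at this
    linarith
  have := mem_range_of_exists_le_of_exists_ge hc ⟨ξ₀, hlow⟩ ⟨ξ₁, hup⟩
  exact this

end Pool.Agent.T6.H45.Jos
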