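import Mathlib
import Pool.Agent.T6.H45.Jos3

set_option autoImplicit false

/-! # The half-period WKB type estimate, continued -/

namespace Pool.Agent.T6.H45.Jos

open Filter Topology Set

section half

variable {l m a : ℝ}

/-- `x = √(2m) sin(τ/2)`. -/
noncomputable def xx (m τ : ℝ) : ℝ := Real.sqrt (2 * m) * Real.sin (τ / 2)

lemma xx_sq (hm : 0 ≤ m) (l τ : ℝ) : xx m τ ^ 2 = l + m - FF l m τ := by
  unfold xx FF
  rw [mul_pow, Real.sq_sqrt (by positivity), Real.sin_sq_eq_half_sub]
  have : 2 * (τ / 2) = τ := by ring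
  rw [this]
  ring

lemma hasDerivAt_xx (m τ : ℝ) :
    HasDerivAt (xx m) (Real.sqrt (2 * m) * Real.cos (τ / 2) / 2) τ := by
  have h1 : HasDerivAt (fun τ : ℝ => τ / 2) (1 / 2) τ := (hasDerivAt_id τ).div_const 2
  have h2 := (h1.sin).const_mul (Real.sqrt (2 * m))
  refine h2.congr_deriv ?_
  ring

/-- The comparison function with `Ψ' ≥ A`. -/
noncomputable def Psi (l m a τ : ℝ) : ℝ :=
  (1 - (a + (l - m)) / (2 * a)) * Q (l + m - a) (xx m τ) +
    (a + (l - m)) / (2 * a) * Q (l + m + a) (xx m τ)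

lemma Psi_zero : Psi l m a 0 = 0 := by
  have : xx m 0 = 0 := by simp [xx]
  unfold Psi
  rw [this, Q_zero, Q_zero]
  ring

lemma hasDerivAt_Psi (ha : 0 < a) (hm : 0 ≤ m) {τ : ℝ} (h : a < FF l m τ) :
    HasDerivAt (Psi l m a) (((1 - (a + (l - m)) / (2 * a)) * Real.sqrt (FF l m τ - a) +
      (a + (l - m)) / (2 * a) * Real.sqrt (FF l m τ + a)) *
        (Real.sqrt (2 * m) * Real.cos (τ / 2))) τ := by
  have hx := xx_sq hm l τ
  have h1 : xx m τ ^ 2 < l + m - a := by rw [hx]; linarith
  have h2 : xx m τ ^ 2 < l + m + a := by linarith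
  have h3 := ((hasDerivAt_Q h1).comp τ (hasDerivAt_xx m τ)).const_mul
    (1 - (a + (l - m)) / (2 * a))
  have h4 := ((hasDerivAt_Q h2).comp τ (hasDerivAt_xx m τ)).const_mul
    ((a + (l - m)) / (2 * a))
  have h5 := h3.add h4
  refine h5.congr_deriv ?_
  have e1 : l + m - a - xx m τ ^ 2 = FF l m τ - a := by rw [hx]; ring
  have e2 : l + m + a - xx m τ ^ 2 = FF l m τ + a := by rw [hx]; ring
  rw [e1, e2]
  ring

lemma AA_le_Psi' (ha : 0 < a) (hm : 0 ≤ m) (h1 : l - a ≤ m) (h3 : m ≤ l + a) {τ : ℝ}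
    (h : a < FF l m τ) (hc : 0 ≤ Real.cos (τ / 2)) :
    AA l m a τ ≤ ((1 - (a + (l - m)) / (2 * a)) * Real.sqrt (FF l m τ - a) +
      (a + (l - m)) / (2 * a) * Real.sqrt (FF l m τ + a)) *
        (Real.sqrt (2 * m) * Real.cos (τ / 2)) := by
  have hp : Real.sqrt (FF l m τ - a) ^ 2 = FF l m τ - a := Real.sq_sqrt (by linarith)
  have hq : Real.sqrt (FF l m τ + a) ^ 2 = FF l m τ + a := Real.sq_sqrt (by linarith)
  have hA : AA l m a τ = Real.sqrt (FF l m τ - a) * Real.sqrt (FF l m τ + a) := by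
    unfold AA
    rw [← Real.sqrt_mul (by linarith)]
    congr 1
    ring
  rw [hA, mul_comm (_ + _) (_ * _)]
  apply conv_ineq (Real.sqrt_nonneg _) (Real.sqrt_nonneg _) (by positivity)
  · apply div_nonneg <;> linarith
  · rw [div_le_one (by positivity)]; linarith
  · rw [hp, hq, mul_pow, Real.sq_sqrt (by positivity), Real.cos_sq]
    have : 2 * (τ / 2) = τ := by ring
    rw [this]
    unfold FF
    field_simp
    ring

lemma Psi_ge (ha : 0 < a) (hm : 0 ≤ m) (h1 : l - a ≤ m) (h2 : a < l + m) (h3 : m ≤ l + a)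
    {τ : ℝ} (h : a ≤ FF l m τ) (hτ : τ ∈ Icc (-Real.pi) 0) :
    -(Real.pi * l) ≤ Psi l m a τ := by
  have hx := xx_sq hm l τ
  have hx0 : xx m τ ≤ 0 := by
    unfold xx
    apply mul_nonpos_of_nonneg_of_nonpos (Real.sqrt_nonneg _)
    apply Real.sin_nonpos_of_nonpos_of_neg_pi_le
    · linarith [hτ.2]
    · linarith [hτ.1, Real.pi_pos]
  have hQ1 := Q_ge (R := l + m - a) (by linarith) hx0 (by rw [hx]; linarith)
  have hQ2 := Q_ge (R := l + m + a) (by linarith) hx0 (by rw [hx]; linarith)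
  have hb0 : 0 ≤ (a + (l - m)) / (2 * a) := by apply div_nonneg <;> linarith
  have hb1 : 0 ≤ 1 - (a + (l - m)) / (2 * a) := by
    have : (a + (l - m)) / (2 * a) ≤ 1 := by rw [div_le_one (by positivity)]; linarith
    linarith
  have e1 := mul_le_mul_of_nonneg_left hQ1 hb1
  have e2 := mul_le_mul_of_nonneg_left hQ2 hb0
  unfold Psi
  have e3 : (1 - (a + (l - m)) / (2 * a)) * -((l + m - a) * (Real.pi / 2)) +
      (a + (l - m)) / (2 * a) * -((l + m + a) * (Real.pi / 2)) = -(Real.pi * l) := by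
    field_simp
    ring
  linarith

/-- Bound on `W` on the barrier. -/
lemma W_le_of_barrier (ha : 0 < a) {τ θ : ℝ} (h : a < FF l m τ)
    (hθ : θ ∈ Ioo (-(Real.pi / 2)) (Real.pi / 2)) (hq : a ≤ FF l m τ * Real.cos θ) :
    W (RR l m a τ) θ ≤ Real.pi / 2 := by
  obtain ⟨hr0, hr1⟩ := RR_mem ha h
  have hpos := one_sub_pos hr0.le hr1 θ
  rcases le_or_gt θ 0 with h0 | h0
  · have hs : Real.sin θ ≤ 0 :=
      Real.sin_nonpos_of_nonpos_of_neg_pi_le h0 (by linarith [hθ.1, Real.pi_pos])
    have : Real.arctan (RR l m a τ * Real.sin θ / (1 - RR l m a τ * Real.cos θ)) ≤ 0 := by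
      rw [← Real.arctan_zero]
      apply Real.arctan_strictMono.monotone
      apply div_nonpos_of_nonpos_of_nonneg _ hpos.le
      exact mul_nonpos_of_nonneg_of_nonpos hr0.le hs
    unfold W
    linarith [Real.pi_pos]
  · have hs : 0 < Real.sin θ := Real.sin_pos_of_pos_of_lt_pi h0 (by linarith [hθ.2, Real.pi_pos])
    have hc : 0 < Real.cos θ := Real.cos_pos_of_mem_Ioo hθ
    have hA := AA_pos ha h
    have hA2 := AA_sq ha h.le
    have hF : 0 < FF l m τ := ha.trans h
    -- s ≤ 1 - ρ c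
    have hρ : a * (1 + RR l m a τ ^ 2) = 2 * FF l m τ * RR l m a τ := by
      unfold RR
      field_simp
      linear_combination hA2
    have hkey : Real.sin θ ≤ 1 - RR l m a τ * Real.cos θ := by
      apply le_of_sq_le_sq _ hpos.le
      have hsc := Real.sin_sq_add_cos_sq θ
      have h1 : 2 * RR l m a τ ≤ Real.cos θ * (1 + RR l m a τ ^ 2) := by
        have : a * (2 * RR l m a τ) ≤ a * (Real.cos θ * (1 + RR l m a τ ^ 2)) := by
          calc a * (2 * RR l m a τ) = 2 * RR l m a τ * a := by ring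
            _ ≤ 2 * RR l m a τ * (FF l m τ * Real.cos θ) :=
                mul_le_mul_of_nonneg_left hq (by positivity)
            _ = Real.cos θ * (2 * FF l m τ * RR l m a τ) := by ring
            _ = Real.cos θ * (a * (1 + RR l m a τ ^ 2)) := by rw [hρ]
            _ = _ := by ring
        exact le_of_mul_le_mul_left this ha
      have h2 := mul_le_mul_of_nonneg_left h1 hc.le
      nlinarith
    -- tangent half angle
    set y := Real.pi / 4 - θ / 2 with hy
    have hy1 : -(Real.pi / 2) < y := by rw [hy]; linarith [hθ.2, Real.pi_pos]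
    have hy2 : y < Real.pi / 2 := by rw [hy]; linarith [Real.pi_pos]
    have hcy : 0 < Real.cos y := Real.cos_pos_of_mem_Ioo ⟨hy1, hy2⟩
    have htan : Real.tan y = Real.cos θ / (1 + Real.sin θ) := by
      have e1 : Real.cos θ = 2 * Real.sin y * Real.cos y := by
        rw [← Real.sin_two_mul, ← Real.sin_pi_div_two_sub]
        congr 1
        rw [hy]; ring
      have e2 : 1 + Real.sin θ = 2 * Real.cos y ^ 2 := by
        rw [Real.cos_sq, ← Real.cos_pi_div_two_sub]
        have : 2 * y = Real.pi / 2 - θ := by rw [hy]; ring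
        rw [this]
        ring
      rw [Real.tan_eq_sin_div_cos, e1, e2]
      field_simp
    have hle : RR l m a τ * Real.sin θ / (1 - RR l m a τ * Real.cos θ) ≤ Real.tan y := by
      rw [htan, div_le_div_iff₀ hpos (by linarith)]
      have hsc := Real.sin_sq_add_cos_sq θ
      -- multiply by positive quantities
      have h5 : RR l m a τ * Real.cos θ ≤ 1 - Real.sin θ := by linarith
      -- ρ s (1+s) ≤ c (1-ρ c)  iff ρ(s+1) ≤ c ... use c² = (1-s)(1+s)
      have h6 : RR l m a τ * (1 + Real.sin θ) ≤ Real.cos θ := by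
        have : Real.cos θ * (RR l m a τ * (1 + Real.sin θ)) ≤ Real.cos θ * Real.cos θ := by
          have : Real.cos θ * (RR l m a τ * (1 + Real.sin θ))
              ≤ (1 - Real.sin θ) * (1 + Real.sin θ) := by
            have := mul_le_mul_of_nonneg_right h5 (by linarith : (0:ℝ) ≤ 1 + Real.sin θ)
            linarith
          nlinarith
        exact le_of_mul_le_mul_left this hc
      nlinarith
    have := Real.arctan_strictMono.monotone hle
    rw [Real.arctan_tan hy1 hy2] at this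
    unfold W
    rw [hy] at this
    linarith

end half

end Pool.Agent.T6.H45.Jos
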