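import Mathlib
import Pool.Agent.T6.H45.Jos6

set_option autoImplicit false

/-! # The extremal solution -/

namespace Pool.Agent.T6.H45.Jos

open Filter Topology Set NNReal

variable {l m a : ℝ}

/-- A first parameter value at which the displacement `d₀` is attained. -/
lemma exists_first (ha : 0 < a) {d₀ m₀ m₁ ξ₁ : ℝ} (h01 : m₀ ≤ m₁)
    (h0 : ∀ ξ, disp l m₀ a ξ < d₀) (h1 : d₀ ≤ disp l m₁ a ξ₁) :
    ∃ m ξ₂, m₀ < m ∧ disp l m a ξ₂ = d₀ ∧ ∀ ξ, disp l m a ξ ≤ d₀ := by
  have hcont := continuous_sol_period (l := l) ha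
  set K : Set (ℝ × ℝ) := (Icc m₀ m₁ ×ˢ Icc (0 : ℝ) (2 * Real.pi)) ∩
    {p | d₀ ≤ disp l p.1 a p.2} with hK
  have hKc : IsCompact K :=
    (isCompact_Icc.prod isCompact_Icc).inter_right (isClosed_le continuous_const hcont)
  obtain ⟨k, η, hη, e⟩ := exists_rep ξ₁
  have hne : K.Nonempty := by
    refine ⟨(m₁, η), ⟨⟨⟨h01, le_rfl⟩, hη⟩, ?_⟩⟩
    rw [e, disp_add_int] at h1
    exact h1
  obtain ⟨p, hpK, hpmin⟩ := hKc.exists_isMinOn hne continuous_fst.continuousOn
  have hp0 : m₀ < p.1 := by
    rcases lt_or_eq_of_le hpK.1.1.1 with h | h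
    · exact h
    · exfalso
      have h2 : d₀ ≤ disp l p.1 a p.2 := hpK.2
      rw [← h] at h2
      exact absurd h2 (not_le.mpr (h0 p.2))
  have hle : ∀ ξ, disp l p.1 a ξ ≤ d₀ := by
    intro ξ
    by_contra hcon
    push Not at hcon
    have hc1 : Continuous (fun m : ℝ => disp l m a ξ) :=
      hcont.comp (by fun_prop : Continuous fun m : ℝ => (m, ξ))
    have hev : ∀ᶠ m' in 𝓝[<] p.1, d₀ < disp l m' a ξ ∧ m₀ < m' := by
      apply Filter.Eventually.filter_mono nhdsWithin_le_nhds
      exact ((hc1.tendsto p.1).eventually (eventually_gt_nhds hcon)).and (eventually_gt_nhds hp0)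
    obtain ⟨m', ⟨h5, h6⟩, h7⟩ := (hev.and self_mem_nhdsWithin).exists
    obtain ⟨k', η', hη', e'⟩ := exists_rep ξ
    have hmem : (m', η') ∈ K := by
      refine ⟨⟨⟨h6.le, (le_of_lt h7).trans hpK.1.1.2⟩, hη'⟩, ?_⟩
      rw [e', disp_add_int] at h5
      exact h5.le
    have := hpmin hmem
    exact absurd h7 (not_lt.mpr this)
  exact ⟨p.1, p.2, hp0, le_antisymm (hle _) hpK.2, hle⟩

lemma sin_taylor (x d : ℝ) : |Real.sin (x + d) - Real.sin x - d * Real.cos x| ≤ d ^ 2 := by
  have hder : ∀ s ∈ uIcc 0 d, HasDerivWithinAt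
      (fun s => Real.sin (x + s) - Real.sin x - s * Real.cos x)
      (Real.cos (x + s) - Real.cos x) (uIcc 0 d) s := by
    intro s _
    have h1 : HasDerivAt (fun s => Real.sin (x + s)) (Real.cos (x + s)) s :=
      HasDerivAt.comp_const_add x s (Real.hasDerivAt_sin (x + s))
    have h2 : HasDerivAt (fun s : ℝ => s * Real.cos x) (Real.cos x) s := by
      simpa using (hasDerivAt_id s).mul_const (Real.cos x)
    exact ((h1.sub_const (Real.sin x)).sub h2).hasDerivWithinAt
  have hbd : ∀ s ∈ uIcc 0 d, ‖Real.cos (x + s) - Real.cos x‖ ≤ |d| := by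
    intro s hs
    have h3 := Real.abs_cos_sub_cos_le (x + s) x
    rw [Real.norm_eq_abs]
    have h4 : |x + s - x| = |s| := by congr 1; ring
    rw [h4] at h3
    refine h3.trans ?_
    have h5 := abs_sub_left_of_mem_uIcc hs
    simpa using h5
  have h := Convex.norm_image_sub_le_of_norm_hasDerivWithin_le hder hbd (convex_uIcc 0 d)
    left_mem_uIcc right_mem_uIcc
  simp only [add_zero, sub_self, zero_mul, sub_zero, Real.norm_eq_abs] at h
  calc _ ≤ |d| * |d| := h
    _ = d ^ 2 := by rw [← sq, sq_abs]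

/-- At the extremal solution the average of `cos x` vanishes. -/
lemma integral_cos_eq_zero (ha : 0 < a) {x : ℝ → ℝ} (hx : IsSol l m a x) {d₀ : ℝ}
    (hd : x (2 * Real.pi) = x 0 + d₀) (hmax : ∀ ξ, disp l m a ξ ≤ d₀) :
    ∫ τ in (0 : ℝ)..(2 * Real.pi), Real.cos (x τ) = 0 := by
  have hxc := hx.continuous
  set C : ℝ → ℝ := fun τ => ∫ s in (0 : ℝ)..τ, Real.cos (x s) with hC
  have hCd : ∀ τ, HasDerivAt C (Real.cos (x τ)) τ := fun τ =>
    ((Real.continuous_cos.comp hxc).integral_hasStrictDerivAt 0 τ).hasDerivAt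
  have hC0 : C 0 = 0 := by simp [hC]
  have hCle : ∀ τ ∈ Icc 0 (2 * Real.pi), C τ ≤ 2 * Real.pi := by
    intro τ hτ
    have : C τ ≤ τ := by
      have h1 := le_of_deriv_nonpos (s := 0) (t := τ) (f := fun t => C t - t)
        (f' := fun t => Real.cos (x t) - 1) hτ.1
        (fun t _ => (hCd t).sub (hasDerivAt_id t)) (fun t _ => by
          linarith [Real.cos_le_one (x t)])
      rw [hC0] at h1
      linarith
    linarith [hτ.2]
  set K₁ : ℝ := a * Real.exp (a * (2 * Real.pi)) * Real.exp (a * (2 * Real.pi)) ^ 2 with hK₁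
  have hK₁pos : 0 < K₁ := by positivity
  -- the key inequality
  have key : ∀ ε : ℝ, ε - K₁ * (2 * Real.pi) * ε ^ 2 ≤
      ε * Real.exp (a * C (2 * Real.pi)) := by
    intro ε
    obtain ⟨y, hy, hy0⟩ := exists_sol l m a 0 (x 0 + ε)
    have hdist : ∀ t ∈ Icc 0 (2 * Real.pi), |y t - x t| ≤ |ε| * Real.exp (a * (2 * Real.pi)) := by
      intro t ht
      have h1 := sol_dist ha hy hx t ht.1
      rw [hy0] at h1
      simp only [add_sub_cancel_left, sub_self, abs_zero, zero_div, zero_mul, add_zero] at h1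
      refine h1.trans ?_
      apply mul_le_mul_of_nonneg_left _ (abs_nonneg _)
      apply Real.exp_le_exp.mpr
      exact mul_le_mul_of_nonneg_left ht.2 ha.le
    have hder : ∀ t, HasDerivAt (fun t => -((y t - x t) * Real.exp (a * C t)) - K₁ * ε ^ 2 * t)
        (-((fld l m a t (y t) - fld l m a t (x t)) * Real.exp (a * C t) +
          (y t - x t) * (Real.exp (a * C t) * (a * Real.cos (x t)))) - K₁ * ε ^ 2) t := by
      intro t
      have h1 := ((((hy t).sub (hx t)).mul (((hCd t).const_mul a).exp)).neg).sub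
        ((hasDerivAt_id t).const_mul (K₁ * ε ^ 2))
      refine h1.congr_deriv ?_
      simp
    have h1 := le_of_deriv_nonpos (s := 0) (t := 2 * Real.pi) (by positivity)
      (fun t _ => hder t) (by
        intro t ht
        have ht' := Ioo_subset_Icc_self ht
        have h2 := sin_taylor (x t) (y t - x t)
        have e1 : x t + (y t - x t) = y t := by ring
        rw [e1] at h2
        have h3 : (y t - x t) ^ 2 ≤ ε ^ 2 * Real.exp (a * (2 * Real.pi)) ^ 2 := by
          have := hdist t ht'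
          rw [← sq_abs, ← sq_abs ε, ← mul_pow]
          exact pow_le_pow_left₀ (abs_nonneg _) this 2
        have h4 : Real.exp (a * C t) ≤ Real.exp (a * (2 * Real.pi)) := by
          apply Real.exp_le_exp.mpr
          exact mul_le_mul_of_nonneg_left (hCle t ht') ha.le
        have h5 : fld l m a t (y t) - fld l m a t (x t) =
            -(a * (Real.sin (y t) - Real.sin (x t))) := by unfold fld; ring
        rw [h5]
        have e2 : -(-(a * (Real.sin (y t) - Real.sin (x t))) * Real.exp (a * C t) +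
          (y t - x t) * (Real.exp (a * C t) * (a * Real.cos (x t)))) =
          a * Real.exp (a * C t) * (Real.sin (y t) - Real.sin (x t) -
            (y t - x t) * Real.cos (x t)) := by ring
        rw [e2]
        have h6 := (abs_le.mp h2).2
        have h7 : a * Real.exp (a * C t) * (Real.sin (y t) - Real.sin (x t) -
            (y t - x t) * Real.cos (x t)) ≤ a * Real.exp (a * C t) * (y t - x t) ^ 2 :=
          mul_le_mul_of_nonneg_left h6 (by positivity)
        have h8 : a * Real.exp (a * C t) * (y t - x t) ^ 2 ≤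
            a * Real.exp (a * (2 * Real.pi)) * (ε ^ 2 * Real.exp (a * (2 * Real.pi)) ^ 2) := by
          apply mul_le_mul _ h3 (sq_nonneg _) (by positivity)
          exact mul_le_mul_of_nonneg_left h4 ha.le
        have e3 : a * Real.exp (a * (2 * Real.pi)) * (ε ^ 2 * Real.exp (a * (2 * Real.pi)) ^ 2)
            = K₁ * ε ^ 2 := by rw [hK₁]; ring
        linarith)
    have hend : y (2 * Real.pi) - x (2 * Real.pi) ≤ ε := by
      have h2 := hy.eq_disp
      have h3 := hmax (y 0)
      rw [hy0] at h2 h3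
      linarith
    simp only [hC0, mul_zero, Real.exp_zero, mul_one, hy0, add_sub_cancel_left, sub_zero] at h1
    have h5 : (y (2 * Real.pi) - x (2 * Real.pi)) * Real.exp (a * C (2 * Real.pi)) ≤
        ε * Real.exp (a * C (2 * Real.pi)) :=
      mul_le_mul_of_nonneg_right hend (Real.exp_pos _).le
    linarith
  have hE : Real.exp (a * C (2 * Real.pi)) = 1 := by
    have hK : 0 < K₁ * (2 * Real.pi) := by positivity
    have h1 := key (-(Real.exp (a * C (2 * Real.pi)) - 1) / (2 * (K₁ * (2 * Real.pi))))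
    generalize K₁ * (2 * Real.pi) = K at *
    generalize Real.exp (a * C (2 * Real.pi)) = E at *
    have h2 : (E - 1) ^ 2 / (4 * K) ≤ 0 := by
      have e : (-(E - 1) / (2 * K)) * E - ((-(E - 1) / (2 * K)) - K * (-(E - 1) / (2 * K)) ^ 2)
          = -((E - 1) ^ 2 / (4 * K)) := by
        field_simp
        ring
      linarith
    have h3 : (E - 1) ^ 2 ≤ 0 := by
      have := (div_le_iff₀ (by positivity : (0:ℝ) < 4 * K)).mp h2
      simpa using this
    have h4 : E - 1 = 0 := by
      have := le_antisymm h3 (sq_nonneg _)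
      exact pow_eq_zero_iff (two_ne_zero) |>.mp this
    linarith
  have h6 : a * C (2 * Real.pi) = 0 := by
    rwa [Real.exp_eq_one_iff] at hE
  rcases mul_eq_zero.mp h6 with h | h
  · exact absurd h ha.ne'
  · exact h

/-- Existence of the special solution. -/
theorem exists_special (ha : 0 < a) (n : ℕ) (hl : l = n) (hm : 0 ≤ m) {ξ : ℝ}
    (h : disp l m a ξ = 2 * Real.pi * (l + 2)) :
    ∃ M, l + a < M ∧ ∃ x : ℝ → ℝ, IsSol l M a x ∧
      (∀ τ, x (τ + 2 * Real.pi) = x τ + ((n : ℤ) + 2 : ℤ) * (2 * Real.pi)) ∧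
      ∫ τ in (0 : ℝ)..(2 * Real.pi), Real.cos (x τ) = 0 := by
  have hm1 : l + a < m := by
    by_contra hcon
    push Not at hcon
    exact absurd h (disp_lt ha n hl hm hcon ξ).ne
  have hl0 : 0 ≤ l := by rw [hl]; positivity
  obtain ⟨M, ξ₂, hM, hd, hmax⟩ := exists_first (l := l) ha (d₀ := 2 * Real.pi * (l + 2))
    (m₀ := l + a) (m₁ := m) (ξ₁ := ξ) hm1.le
    (fun ξ => disp_lt ha n hl (by linarith) le_rfl ξ) h.ge
  refine ⟨M, hM, sol l M a ξ₂, sol_isSol _ _ _ _, ?_, ?_⟩
  · have h1 := (sol_isSol l M a ξ₂).shift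
    have h2 := (sol_isSol l M a ξ₂).add_int ((n : ℤ) + 2)
    have h3 := IsSol.unique h1 h2 (s := 0) (by
      simp only [zero_add, sol_zero]
      unfold disp at hd
      push_cast
      rw [← hl]
      linarith)
    intro τ
    exact congrFun h3 τ
  · apply integral_cos_eq_zero ha (sol_isSol l M a ξ₂) (d₀ := 2 * Real.pi * (l + 2)) _ hmax
    rw [sol_zero]
    unfold disp at hd
    linarith

end Pool.Agent.T6.H45.Jos
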