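import Pool.Agent.H703R3.MBDefs

/-!
# Inner billiards: local perturbations of the round ball of `ℝⁿ`, `n ≥ 3`

A line with angular momentum `c` in the plane of the coordinates `i`, `j` meets only points `x` with
`x_i² + x_j² ≥ c²`. So a perturbation of the unit ball supported in `x_i² + x_j² < c²` does not
change the billiard on the invariant hypersurface formed by these lines.
-/

set_option autoImplicit false

open Set Filter Topology
open scoped RealInnerProductSpace ContDiff

namespace Pool.Agent.T6.H45.Inner2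

open Pool.Agent.H703R3.MB

section General

variable {n : ℕ} {f : Euc n → ℝ} {g : Euc n → Euc n}

/-- `f` is smooth and uniformly convex with gradient `g` -/
structure Nice (f : Euc n → ℝ) (g : Euc n → Euc n) : Prop where
  cd : ContDiff ℝ ∞ f
  grad : ∀ x, HasGradientAt f (g x) x
  ge : ∀ x y, f x + ⟪g x, y - x⟫ + ‖y - x‖ ^ 2 / 2 ≤ f y
  le : ∀ x y, f y ≤ f x + ⟪g x, y - x⟫ + 2 * ‖y - x‖ ^ 2
  zero : f 0 < 1
  bdd : ∀ x, ‖x‖ ^ 2 - 1 ≤ f x

/-- the body `f ≤ 1` -/
def Bd (f : Euc n → ℝ) : Set (Euc n) := {x | f x ≤ 1}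

namespace Nice

theorem continuous (h : Nice f g) : Continuous f := h.cd.continuous

theorem pos (h : Nice f g) {x : Euc n} (hx : f x = 1) : 0 < ⟪g x, x⟫ := by
  have h1 := h.ge x 0
  rw [zero_sub, inner_neg_right, norm_neg, hx] at h1
  have h2 := h.zero
  nlinarith [sq_nonneg ‖x‖]

theorem exists_lt (h : Nice f g) {x w : Euc n} (hw : ⟪g x, w⟫ < 0) :
    ∃ s : ℝ, 0 < s ∧ f (x + s • w) < f x := by
  have hw0 : w ≠ 0 := by
    rintro rfl
    simp at hw
  have hw1 : 0 < ‖w‖ := norm_pos_iff.2 hw0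
  have hw2 : 0 < ‖w‖ ^ 2 := by positivity
  set a := -⟪g x, w⟫ with ha
  have ha0 : 0 < a := by linarith
  refine ⟨a / (4 * ‖w‖ ^ 2), by positivity, ?_⟩
  have h1 := h.le x (x + (a / (4 * ‖w‖ ^ 2)) • w)
  rw [add_sub_cancel_left, real_inner_smul_right, norm_smul, mul_pow, Real.norm_eq_abs, sq_abs] at h1
  have h2 : a / (4 * ‖w‖ ^ 2) * ⟪g x, w⟫ + 2 * ((a / (4 * ‖w‖ ^ 2)) ^ 2 * ‖w‖ ^ 2) =
      -(a ^ 2 / (8 * ‖w‖ ^ 2)) := by
    rw [show ⟪g x, w⟫ = -a by rw [ha]; ring]
    field_simp
    ring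
  have h3 : 0 < a ^ 2 / (8 * ‖w‖ ^ 2) := by positivity
  linarith

theorem strict (h : Nice f g) {x y : Euc n} (hxy : x ≠ y) {a b : ℝ} (ha : 0 < a) (hb : 0 < b)
    (hab : a + b = 1) (hx : f x ≤ 1) (hy : f y ≤ 1) : f (a • x + b • y) < 1 := by
  set z := a • x + b • y with hz
  have h1 := h.ge z x
  have h2 := h.ge z y
  have e1 : x - z = b • (x - y) := by
    rw [hz]
    have : x - (a • x + b • y) = (1 - a) • x - b • y := by
      rw [sub_smul, one_smul]
      abel
    rw [this, show 1 - a = b by linarith, smul_sub]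
  have e2 : y - z = (-a) • (x - y) := by
    rw [hz]
    have : y - (a • x + b • y) = (1 - b) • y - a • x := by
      rw [sub_smul, one_smul]
      abel
    rw [this, show 1 - b = a by linarith, neg_smul, smul_sub]
    abel
  have h3 : 0 < ‖x - z‖ ^ 2 := by
    rw [e1, norm_smul]
    have : 0 < ‖x - y‖ := norm_pos_iff.2 (sub_ne_zero.2 hxy)
    have hb' : 0 < ‖b‖ := norm_pos_iff.2 hb.ne'
    positivity
  have h4 : a * ⟪g z, x - z⟫ + b * ⟪g z, y - z⟫ = 0 := by
    rw [e1, e2, real_inner_smul_right, real_inner_smul_right]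
    ring
  have h5 : 0 ≤ ‖y - z‖ ^ 2 := by positivity
  have h6 : a * (f z + ⟪g z, x - z⟫ + ‖x - z‖ ^ 2 / 2) +
      b * (f z + ⟪g z, y - z⟫ + ‖y - z‖ ^ 2 / 2) ≤ a * 1 + b * 1 :=
    add_le_add (mul_le_mul_of_nonneg_left (h1.trans hx) ha.le)
      (mul_le_mul_of_nonneg_left (h2.trans hy) hb.le)
  have h7 : f z + a * (‖x - z‖ ^ 2 / 2) + b * (‖y - z‖ ^ 2 / 2) ≤ 1 := by
    have : a * (f z + ⟪g z, x - z⟫ + ‖x - z‖ ^ 2 / 2) +
      b * (f z + ⟪g z, y - z⟫ + ‖y - z‖ ^ 2 / 2) = (a + b) * f z +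
      (a * ⟪g z, x - z⟫ + b * ⟪g z, y - z⟫) + a * (‖x - z‖ ^ 2 / 2) +
        b * (‖y - z‖ ^ 2 / 2) := by ring
    rw [this, hab, h4] at h6
    linarith
  have h8 : 0 < a * (‖x - z‖ ^ 2 / 2) := mul_pos ha (by linarith)
  have h9 : 0 ≤ b * (‖y - z‖ ^ 2 / 2) := mul_nonneg hb.le (by linarith)
  linarith

theorem isClosed_body (h : Nice f g) : IsClosed (Bd f) :=
  isClosed_le h.continuous continuous_const

theorem norm_le_of_mem (h : Nice f g) {x : Euc n} (hx : x ∈ Bd f) : ‖x‖ ≤ 2 := by
  have h1 : f x ≤ 1 := hx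
  have := h.bdd x
  nlinarith [norm_nonneg x]

theorem interior_body (h : Nice f g) : interior (Bd f) = {x | f x < 1} := by
  apply Subset.antisymm
  · intro x hx
    have h1' : x ∈ Bd f := interior_subset hx
    have h1 : f x ≤ 1 := h1'
    refine lt_of_le_of_ne h1 fun h2 => ?_
    have hc : Tendsto (fun s : ℝ => x + s • x) (𝓝 0) (𝓝 x) := by
      have : Continuous fun s : ℝ => x + s • x := by fun_prop
      simpa using this.tendsto 0
    have h3 : ∀ᶠ s : ℝ in 𝓝 0, x + s • x ∈ Bd f :=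
      hc.eventually (mem_interior_iff_mem_nhds.1 hx)
    obtain ⟨δ, hδ, hs⟩ := Metric.eventually_nhds_iff.1 h3
    have h4 := hs (y := δ / 2) (by rw [Real.dist_eq, sub_zero, abs_of_pos (by linarith)]; linarith)
    have h5 : f (x + (δ / 2) • x) ≤ 1 := h4
    have h6 := h.ge x (x + (δ / 2) • x)
    rw [add_sub_cancel_left, real_inner_smul_right] at h6
    have h7 := h.pos h2
    have h8 : 0 < δ / 2 * ⟪g x, x⟫ := by positivity
    have h9 : 0 ≤ ‖(δ / 2) • x‖ ^ 2 := by positivity
    linarith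
  · refine interior_maximal (fun x hx => ?_) (isOpen_lt h.continuous continuous_const)
    have hx' : f x < 1 := hx
    exact hx'.le

theorem frontier_body (h : Nice f g) : frontier (Bd f) = {x | f x = 1} := by
  rw [h.isClosed_body.frontier_eq, h.interior_body]
  ext x
  simp only [Set.mem_sdiff, mem_ofPred_eq, not_lt, Bd]
  exact ⟨fun h => le_antisymm h.1 h.2, fun h => ⟨h.le, h.ge⟩⟩

theorem g_ne_zero (h : Nice f g) {x : Euc n} (hx : f x = 1) : g x ≠ 0 := by
  intro h0
  have := h.pos hx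
  rw [h0, inner_zero_left] at this
  exact lt_irrefl _ this

theorem gradient_sub (h : Nice f g) (x : Euc n) : gradient (fun y => f y - 1) x = g x := by
  have h1 := h.grad x
  rw [hasGradientAt_iff_hasFDerivAt] at h1
  have : HasGradientAt (fun y => f y - 1) (g x) x := by
    rw [hasGradientAt_iff_hasFDerivAt]
    exact h1.sub_const 1
  exact this.gradient

theorem hasDerivAt_line (h : Nice f g) (x v : Euc n) (s : ℝ) :
    HasDerivAt (fun s : ℝ => f (x + s • v) - 1) ⟪g (x + s • v), v⟫ s := by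
  have h1 := h.grad (x + s • v)
  rw [hasGradientAt_iff_hasFDerivAt] at h1
  have hl : HasDerivAt (fun s : ℝ => x + s • v) v s := by
    simpa using ((hasDerivAt_id s).smul_const v).const_add x
  have hc : HasDerivAt (fun s : ℝ => f (x + s • v))
      ((InnerProductSpace.toDual ℝ (Euc n)) (g (x + s • v)) v) s :=
    HasFDerivAt.comp_hasDerivAt (x := s) (f := fun s : ℝ => x + s • v)
      (l := f) (by simpa using h1) hl
  rw [InnerProductSpace.toDual_apply_apply] at hc
  exact hc.sub_const 1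

theorem second_deriv (h : Nice f g) (x v : Euc n) (hv : v ≠ 0) :
    0 < deriv (deriv fun s : ℝ => f (x + s • v) - 1) 0 := by
  have e : (deriv fun s : ℝ => f (x + s • v) - 1) = fun s => ⟪g (x + s • v), v⟫ := by
    ext s
    exact (h.hasDerivAt_line x v s).deriv
  have hcd : ContDiff ℝ ∞ fun s : ℝ => f (x + s • v) - 1 := by
    have h1 := h.cd
    fun_prop
  have hcd2 : ContDiff ℝ ∞ (deriv fun s : ℝ => f (x + s • v) - 1) := by
    simpa using hcd.iterate_deriv 1
  have hd : HasDerivAt (deriv fun s : ℝ => f (x + s • v) - 1)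
      (deriv (deriv fun s : ℝ => f (x + s • v) - 1) 0) 0 :=
    (hcd2.differentiable (by simp)).differentiableAt.hasDerivAt
  have hv0 : 0 < ‖v‖ := norm_pos_iff.2 hv
  have hv1 : 0 < ‖v‖ ^ 2 := by positivity
  have h3 : ‖v‖ ^ 2 ≤ deriv (deriv fun s : ℝ => f (x + s • v) - 1) 0 := by
    rw [hasDerivAt_iff_tendsto_slope] at hd
    refine ge_of_tendsto hd ?_
    rw [eventually_nhdsWithin_iff]
    refine Eventually.of_forall fun s hs => ?_
    have hs0 : s ≠ 0 := hs
    rw [e, slope_def_field, sub_zero]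
    have h1 := h.ge x (x + s • v)
    have h2 := h.ge (x + s • v) x
    rw [add_sub_cancel_left, real_inner_smul_right, norm_smul, mul_pow, Real.norm_eq_abs,
      sq_abs] at h1
    rw [show x - (x + s • v) = (-s) • v by module, real_inner_smul_right, norm_smul, mul_pow,
      Real.norm_eq_abs, sq_abs, neg_sq] at h2
    rw [zero_smul, add_zero]
    have h4 : s ^ 2 * ‖v‖ ^ 2 ≤ s * (⟪g (x + s • v), v⟫ - ⟪g x, v⟫) := by nlinarith
    rw [show (⟪g (x + s • v), v⟫ - ⟪g x, v⟫) / s =
      s * (⟪g (x + s • v), v⟫ - ⟪g x, v⟫) / s ^ 2 by field_simp, le_div_iff₀ (by positivity)]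
    linarith
  linarith

theorem isTable (h : Nice f g) : IsTable (Bd f) where
  isCompact := Metric.isCompact_of_isClosed_isBounded h.isClosed_body
    ((Metric.isBounded_closedBall (x := (0 : Euc n)) (r := 2)).subset fun x hx => by
      rw [mem_closedBall_zero_iff]
      exact h.norm_le_of_mem hx)
  nonempty := ⟨0, by
    rw [h.interior_body]
    exact h.zero⟩
  strictConvex := by
    intro x hx y hy hxy a b ha hb hab
    rw [h.interior_body]
    exact h.strict hxy ha hb hab hx hy
  smooth := by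
    intro x hx
    rw [h.frontier_body] at hx
    refine ⟨fun y => f y - 1, h.cd.sub contDiff_const, ?_, ?_, ?_⟩
    · rw [h.gradient_sub]
      exact h.g_ne_zero hx
    · exact Eventually.of_forall fun y => by simp [Bd]
    · intro v hv _
      exact h.second_deriv x v hv

theorem isOuterNormal_iff (h : Nice f g) {x ν : Euc n} (hx : f x = 1) :
    IsOuterNormal (Bd f) x ν ↔ ν = ‖g x‖⁻¹ • g x := by
  have h0 : 0 < ‖g x‖ := norm_pos_iff.2 (h.g_ne_zero hx)
  have hn1 : ‖‖g x‖⁻¹ • g x‖ = 1 := by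
    rw [norm_smul, norm_inv, norm_norm, inv_mul_cancel₀ h0.ne']
  constructor
  · rintro ⟨h1, h2⟩
    by_contra hne
    set e := ‖g x‖⁻¹ • g x with he
    have hlt : ⟪e, ν⟫ < 1 := by
      have h3 := real_inner_le_norm e ν
      rw [hn1, h1, one_mul] at h3
      exact lt_of_le_of_ne h3 fun h4 => hne ((inner_eq_one_iff_of_norm_eq_one hn1 h1).1 h4).symm
    have h5 : ⟪g x, ν - e⟫ < 0 := by
      have h6 : ⟪e, ν - e⟫ < 0 := by
        rw [inner_sub_right, real_inner_self_eq_norm_sq, hn1]
        linarith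
      have h7 : g x = ‖g x‖ • e := by
        rw [he, smul_smul, mul_inv_cancel₀ h0.ne', one_smul]
      rw [h7, real_inner_smul_left]
      exact mul_neg_of_pos_of_neg h0 h6
    obtain ⟨s, hs0, hs⟩ := h.exists_lt h5
    have h8 := h2 (x + s • (ν - e)) (by
      show f _ ≤ 1
      rw [← hx]
      exact hs.le)
    rw [add_sub_cancel_left, real_inner_smul_right, inner_sub_right, real_inner_self_eq_norm_sq,
      h1, real_inner_comm] at h8
    have : 0 < s * (1 ^ 2 - ⟪e, ν⟫) := by
      apply mul_pos hs0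
      linarith
    linarith
  · rintro rfl
    refine ⟨hn1, fun y hy => ?_⟩
    have h3 := h.ge x y
    have h4 : f y ≤ 1 := hy
    rw [real_inner_smul_left]
    have h5 : ⟪g x, y - x⟫ ≤ 0 := by
      have : 0 ≤ ‖y - x‖ ^ 2 := by positivity
      linarith
    exact mul_nonpos_of_nonneg_of_nonpos (by positivity) h5

theorem outerNormal_eq (h : Nice f g) {x : Euc n} (hx : f x = 1) :
    outerNormal (Bd f) x = ‖g x‖⁻¹ • g x := by
  have h1 : IsOuterNormal (Bd f) x (outerNormal (Bd f) x) :=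
    Classical.epsilon_spec ⟨_, (h.isOuterNormal_iff hx).2 rfl⟩
  exact (h.isOuterNormal_iff hx).1 h1

end Nice

/-- reflection of the direction `v` at the boundary point `x` -/
noncomputable def refl (Ω : Set (Euc n)) (x v : Euc n) : Euc n :=
  v - (2 * ⟪v, outerNormal Ω x⟫) • outerNormal Ω x

theorem normal_norm (h : Nice f g) {x : Euc n} (hx : f x = 1) :
    ‖outerNormal (Bd f) x‖ = 1 := by
  rw [h.outerNormal_eq hx, norm_smul, norm_inv, norm_norm,
    inv_mul_cancel₀ (norm_pos_iff.2 (h.g_ne_zero hx)).ne']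

theorem inner_normal_refl (h : Nice f g) {x : Euc n} (hx : f x = 1) (v : Euc n) :
    ⟪refl (Bd f) x v, outerNormal (Bd f) x⟫ = - ⟪v, outerNormal (Bd f) x⟫ := by
  unfold refl
  rw [inner_sub_left, real_inner_smul_left, real_inner_self_eq_norm_sq, normal_norm h hx]
  ring

theorem refl_refl (h : Nice f g) {x : Euc n} (hx : f x = 1) (v : Euc n) :
    refl (Bd f) x (refl (Bd f) x v) = v := by
  have h1 := inner_normal_refl h hx v
  conv_lhs => unfold refl
  rw [show v - (2 * ⟪v, outerNormal (Bd f) x⟫) • outerNormal (Bd f) x = refl (Bd f) x v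
    from rfl, h1]
  unfold refl
  rw [sub_sub, ← add_smul]
  simp

theorem norm_refl (h : Nice f g) {x : Euc n} (hx : f x = 1) (v : Euc n) :
    ‖refl (Bd f) x v‖ = ‖v‖ := by
  have h0 : ‖refl (Bd f) x v‖ ^ 2 = ‖v‖ ^ 2 := by
    unfold refl
    rw [norm_sub_sq_real, norm_smul, real_inner_smul_right, mul_pow, normal_norm h hx,
      Real.norm_eq_abs, sq_abs]
    ring
  exact (sq_eq_sq₀ (norm_nonneg _) (norm_nonneg _)).1 h0

theorem g_eq (h : Nice f g) {x : Euc n} (hx : f x = 1) :
    g x = ‖g x‖ • outerNormal (Bd f) x := by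
  rw [h.outerNormal_eq hx, smul_smul, mul_inv_cancel₀ (norm_pos_iff.2 (h.g_ne_zero hx)).ne',
    one_smul]

theorem inner_g_refl (h : Nice f g) {x : Euc n} (hx : f x = 1) (v : Euc n) :
    ⟪g x, refl (Bd f) x v⟫ = - ⟪g x, v⟫ := by
  rw [g_eq h hx, real_inner_smul_left, real_inner_smul_left, real_inner_comm,
    inner_normal_refl h hx, real_inner_comm]
  ring

theorem lineThrough_mem (h : Nice f g) {x v : Euc n} (hv : ‖v‖ = 1)
    (hx : f x = 1) (hg : ⟪g x, v⟫ ≠ 0) : lineThrough x v ∈ lines (Bd f) := by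
  refine ⟨hv, ?_, ?_⟩
  · show ⟪x - ⟪x, v⟫ • v, v⟫ = 0
    rw [inner_sub_left, real_inner_smul_left, real_inner_self_eq_norm_sq, hv]
    ring
  · rcases lt_or_gt_of_ne hg with hg | hg
    · obtain ⟨s, _, hs⟩ := h.exists_lt hg
      refine ⟨s + ⟪x, v⟫, ?_⟩
      rw [h.interior_body]
      show f _ < 1
      have : (lineThrough x v).1 + (s + ⟪x, v⟫) • (lineThrough x v).2 = x + s • v := by
        unfold lineThrough
        simp only
        module
      rw [this]
      linarith
    · have hg' : ⟪g x, -v⟫ < 0 := by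
        rw [inner_neg_right]
        linarith
      obtain ⟨s, _, hs⟩ := h.exists_lt hg'
      refine ⟨-s + ⟪x, v⟫, ?_⟩
      rw [h.interior_body]
      show f _ < 1
      have : (lineThrough x v).1 + (-s + ⟪x, v⟫) • (lineThrough x v).2 = x + s • -v := by
        unfold lineThrough
        simp only
        module
      rw [this]
      linarith

theorem exitPoint_eq (h : Nice f g) {x v : Euc n} (hx : f x = 1)
    (hg : 0 < ⟪g x, v⟫) : exitPoint (Bd f) (lineThrough x v) = x := by
  have hs : sSup {t : ℝ | (lineThrough x v).1 + t • (lineThrough x v).2 ∈ Bd f} = ⟪x, v⟫ := by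
    apply IsGreatest.csSup_eq
    constructor
    · show f _ ≤ 1
      have : (lineThrough x v).1 + (⟪x, v⟫ : ℝ) • (lineThrough x v).2 = x := by
        unfold lineThrough
        simp only
        module
      rw [this, hx]
    · intro t ht
      have ht' : f ((lineThrough x v).1 + t • (lineThrough x v).2) ≤ 1 := ht
      have e : (lineThrough x v).1 + t • (lineThrough x v).2 = x + (t - ⟪x, v⟫) • v := by
        unfold lineThrough
        simp only
        module
      rw [e] at ht'
      by_contra hcon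
      push Not at hcon
      have h1 := h.ge x (x + (t - ⟪x, v⟫) • v)
      rw [add_sub_cancel_left, real_inner_smul_right] at h1
      have h2 : 0 < (t - ⟪x, v⟫) * ⟪g x, v⟫ := mul_pos (by linarith) hg
      have h3 : 0 ≤ ‖(t - ⟪x, v⟫) • v‖ ^ 2 := by positivity
      linarith
  unfold exitPoint
  rw [hs]
  unfold lineThrough
  simp only
  module

theorem billiardMap_lineThrough (h : Nice f g) {x v : Euc n} (hx : f x = 1)
    (hg : 0 < ⟪g x, v⟫) :
    billiardMap (Bd f) (lineThrough x v) = lineThrough x (refl (Bd f) x v) := by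
  unfold billiardMap
  rw [exitPoint_eq h hx hg]
  rfl

theorem exists_exit (h : Nice f g) {l : Euc n × Euc n} (hl : l ∈ lines (Bd f)) :
    ∃ x, f x = 1 ∧ 0 < ⟪g x, l.2⟫ ∧ l = lineThrough x l.2 := by
  obtain ⟨h1, h2, t₀, h3⟩ := hl
  rw [h.interior_body] at h3
  have h3' : f (l.1 + t₀ • l.2) < 1 := h3
  obtain ⟨b, hb, hfb⟩ : ∃ b, t₀ < b ∧ f (l.1 + b • l.2) = 1 := by
    have hc : Continuous fun t : ℝ => f (l.1 + t • l.2) := by
      have := h.continuous
      fun_prop
    set t₁ : ℝ := max t₀ 2 with ht₁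
    have hf1 : 1 ≤ f (l.1 + t₁ • l.2) := by
      have e1 := h.bdd (l.1 + t₁ • l.2)
      rw [norm_add_sq_real, real_inner_smul_right, h2, norm_smul, h1, Real.norm_eq_abs] at e1
      have e2 : (2 : ℝ) ≤ |t₁| := (le_max_right _ _).trans (le_abs_self _)
      nlinarith [sq_nonneg ‖l.1‖]
    obtain ⟨b, ⟨hb1, _⟩, hb2⟩ := intermediate_value_Icc (le_max_left t₀ 2) hc.continuousOn
      (show (1 : ℝ) ∈ Icc _ _ from ⟨h3'.le, hf1⟩)
    refine ⟨b, lt_of_le_of_ne hb1 ?_, hb2⟩
    rintro rfl
    have hb2' : f (l.1 + t₀ • l.2) = 1 := hb2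
    linarith
  refine ⟨l.1 + b • l.2, hfb, ?_, ?_⟩
  · have h4 := h.ge (l.1 + b • l.2) (l.1 + t₀ • l.2)
    have e : l.1 + t₀ • l.2 - (l.1 + b • l.2) = (t₀ - b) • l.2 := by module
    rw [e, hfb, real_inner_smul_right] at h4
    have h5 : 0 ≤ ‖(t₀ - b) • l.2‖ ^ 2 := by positivity
    by_contra hcon
    push Not at hcon
    have h6 : 0 ≤ (t₀ - b) * ⟪g (l.1 + b • l.2), l.2⟫ :=
      mul_nonneg_of_nonpos_of_nonpos (by linarith) hcon
    linarith
  · unfold lineThrough
    rw [inner_add_left, h2, real_inner_smul_left, real_inner_self_eq_norm_sq, h1]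
    ext1
    · simp only
      module
    · rfl

theorem lineThrough_neg (x v : Euc n) :
    lineThrough x (-v) = ((lineThrough x v).1, -(lineThrough x v).2) := by
  unfold lineThrough
  rw [inner_neg_right, smul_neg, neg_smul, neg_neg]

theorem exists_entry (h : Nice f g) {l : Euc n × Euc n} (hl : l ∈ lines (Bd f)) :
    ∃ x, f x = 1 ∧ ⟪g x, l.2⟫ < 0 ∧ l = lineThrough x l.2 := by
  have hl' : ((l.1, -l.2) : Euc n × Euc n) ∈ lines (Bd f) := by
    obtain ⟨h1, h2, t₀, h3⟩ := hl
    refine ⟨by rw [norm_neg]; exact h1, by rw [inner_neg_right, h2, neg_zero], -t₀, ?_⟩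
    rw [smul_neg, neg_smul, neg_neg]
    exact h3
  obtain ⟨x, hx, hg, he⟩ := exists_exit h hl'
  refine ⟨x, hx, ?_, ?_⟩
  · have : 0 < ⟪g x, -l.2⟫ := hg
    rw [inner_neg_right] at this
    linarith
  · have he' : (l.1, -l.2) = lineThrough x (-l.2) := he
    rw [lineThrough_neg] at he'
    have e1 : l.1 = (lineThrough x l.2).1 := (Prod.ext_iff.1 he').1
    ext1
    · exact e1
    · rfl

end General

/-! ### Angular momentum -/

section Ang

variable {n : ℕ}

/-- the angular momentum of an oriented line in the plane of the coordinates `i`, `j` -/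
noncomputable def am (i j : Fin n) (l : Euc n × Euc n) : ℝ := l.1 i * l.2 j - l.1 j * l.2 i

theorem am_lineThrough (i j : Fin n) (x v : Euc n) :
    am i j (lineThrough x v) = x i * v j - x j * v i := by
  unfold am lineThrough
  simp only [PiLp.sub_apply, PiLp.smul_apply, smul_eq_mul]
  ring

theorem am_contDiff (i j : Fin n) : ContDiff ℝ ∞ (am i j : Euc n × Euc n → ℝ) := by
  unfold am
  fun_prop

theorem two_le_norm {i j : Fin n} (hij : i ≠ j) (x : Euc n) : x i ^ 2 + x j ^ 2 ≤ ‖x‖ ^ 2 := by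
  rw [EuclideanSpace.norm_sq_eq]
  have h := Finset.sum_le_sum_of_subset_of_nonneg (f := fun a => ‖x a‖ ^ 2)
    (Finset.subset_univ ({i, j} : Finset (Fin n))) (fun a _ _ => by positivity)
  rw [Finset.sum_pair hij] at h
  simpa using h

/-- a line of angular momentum `c` meets only points with `x_i² + x_j² ≥ c²` -/
theorem far {i j : Fin n} (hij : i ≠ j) {c : ℝ} {x v : Euc n} (hv : ‖v‖ = 1)
    (h : x i * v j - x j * v i = c) : c ^ 2 ≤ x i ^ 2 + x j ^ 2 := by
  have h1 := two_le_norm hij v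
  rw [hv] at h1
  have h2 : c ^ 2 ≤ (x i ^ 2 + x j ^ 2) * (v i ^ 2 + v j ^ 2) := by
    rw [← h]
    nlinarith [sq_nonneg (x i * v i + x j * v j)]
  nlinarith [mul_nonneg (add_nonneg (sq_nonneg (x i)) (sq_nonneg (x j)))
    (sub_nonneg.2 h1), sq_nonneg (x i), sq_nonneg (x j)]

variable {f : Euc n → ℝ} {g : Euc n → Euc n}

theorem am_refl (h : Nice f g) {i j : Fin n} {x : Euc n} (hx : f x = 1)
    (hgx : g x = (2 : ℝ) • x) (v : Euc n) :
    x i * (refl (Bd f) x v) j - x j * (refl (Bd f) x v) i = x i * v j - x j * v i := by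
  unfold refl
  rw [h.outerNormal_eq hx, hgx]
  simp only [PiLp.sub_apply, PiLp.smul_apply, smul_eq_mul]
  ring

theorem isInvariant (h : Nice f g) {i j : Fin n} (hij : i ≠ j) {c : ℝ} (hc0 : 0 < c) (hc1 : c < 1)
    (hfar : ∀ x : Euc n, c ^ 2 ≤ x i ^ 2 + x j ^ 2 → f x = ‖x‖ ^ 2 ∧ g x = (2 : ℝ) • x) :
    IsInvariantHypersurface (Bd f) {l | l ∈ lines (Bd f) ∧ am i j l = c} where
  nonempty := by
    refine ⟨(c • EuclideanSpace.single i (1 : ℝ), EuclideanSpace.single j (1 : ℝ)),
      ⟨?_, ?_, 0, ?_⟩, ?_⟩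
    · simp
    · rw [real_inner_smul_left, EuclideanSpace.inner_single_left]
      simp [hij]
    · rw [h.interior_body]
      show f _ < 1
      rw [zero_smul, add_zero, (hfar _ _).1]
      · rw [norm_smul]
        simp
        rw [abs_of_pos hc0]
        exact hc1
      · simp [hij.symm]
    · unfold am
      simp [hij]
  subset := fun l hl => hl.1
  closed := by
    refine ⟨{l | am i j l = c}, isClosed_eq (am_contDiff i j).continuous continuous_const, ?_⟩
    ext l
    rfl
  smooth := by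
    intro l hl
    refine ⟨fun l => am i j l - c, (am_contDiff i j).sub contDiff_const,
      Eventually.of_forall fun l' hl' => ?_, (l.1, 0), ?_, ?_⟩
    · constructor
      · rintro ⟨-, h⟩
        show am i j l' - c = 0
        rw [h, sub_self]
      · intro h
        have h' : am i j l' - c = 0 := h
        exact ⟨hl', by linarith⟩
    · refine ⟨inner_zero_right _, ?_⟩
      show ⟪l.1, l.2⟫ + ⟪l.1, (0 : Euc n)⟫ = 0
      rw [hl.1.2.1, inner_zero_right, add_zero]
    · have hd : DifferentiableAt ℝ (fun l => am i j l - c : Euc n × Euc n → ℝ) l :=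
        (((am_contDiff i j).sub contDiff_const).differentiable (by simp)).differentiableAt
      have hl' : HasDerivAt (fun s : ℝ => l + s • ((l.1, 0) : Euc n × Euc n)) (l.1, 0) 0 := by
        simpa using ((hasDerivAt_id (0 : ℝ)).smul_const ((l.1, 0) : Euc n × Euc n)).const_add l
      have hc : HasDerivAt (fun s : ℝ => am i j (l + s • ((l.1, 0) : Euc n × Euc n)) - c)
          (fderiv ℝ (fun l => am i j l - c) l (l.1, 0)) 0 :=
        HasFDerivAt.comp_hasDerivAt (x := (0 : ℝ))
          (f := fun s : ℝ => l + s • ((l.1, 0) : Euc n × Euc n))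
          (l := fun l => am i j l - c) (by simpa using hd.hasFDerivAt) hl'
      have hc2 : HasDerivAt (fun s : ℝ => am i j (l + s • ((l.1, 0) : Euc n × Euc n)) - c)
          (am i j l) 0 := by
        have e : (fun s : ℝ => am i j (l + s • ((l.1, 0) : Euc n × Euc n)) - c) =
            fun s : ℝ => (am i j l - c) + s * am i j l := by
          ext s
          unfold am
          simp only [Prod.fst_add, Prod.smul_fst, Prod.snd_add, Prod.smul_snd, smul_zero,
            add_zero, PiLp.add_apply, PiLp.smul_apply, smul_eq_mul]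
          ring
        rw [e]
        simpa using ((hasDerivAt_id (0 : ℝ)).mul_const (am i j l)).const_add (am i j l - c)
      rw [hc.unique hc2, hl.2]
      exact hc0.ne'
  invariant := by
    apply Subset.antisymm
    · rintro _ ⟨l, ⟨hl, ha⟩, rfl⟩
      obtain ⟨x, hx, hg, he⟩ := exists_exit h hl
      have hv : ‖l.2‖ = 1 := hl.1
      rw [he] at ha ⊢
      rw [billiardMap_lineThrough h hx hg]
      refine ⟨lineThrough_mem h (by rw [norm_refl h hx, hv]) hx ?_, ?_⟩
      · rw [inner_g_refl h hx]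
        linarith
      · rw [am_lineThrough] at ha ⊢
        rw [am_refl h hx (hfar x (far hij hv ha)).2]
        exact ha
    · rintro l ⟨hl, ha⟩
      obtain ⟨x, hx, hg, he⟩ := exists_entry h hl
      have hv : ‖l.2‖ = 1 := hl.1
      have ha' : x i * l.2 j - x j * l.2 i = c := by
        rw [← am_lineThrough, ← he]
        exact ha
      have hgx := (hfar x (far hij hv ha')).2
      have hg' : 0 < ⟪g x, refl (Bd f) x l.2⟫ := by
        rw [inner_g_refl h hx]
        linarith
      have hv' : ‖refl (Bd f) x l.2‖ = 1 := by rw [norm_refl h hx, hv]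
      refine ⟨lineThrough x (refl (Bd f) x l.2), ⟨lineThrough_mem h hv' hx hg'.ne', ?_⟩, ?_⟩
      · rw [am_lineThrough, am_refl h hx hgx]
        exact ha'
      · rw [billiardMap_lineThrough h hx hg', refl_refl h hx, ← he]

/-- if the body `f ≤ 1` is an ellipsoid then `f = 1` on the unit sphere -/
theorem ellipsoid_imp (h : Nice f g) {i j : Fin n} (hij : i ≠ j) {c : ℝ} (hc1 : c < 1)
    (hc0 : 0 < c)
    (hfar : ∀ x : Euc n, c ^ 2 ≤ x i ^ 2 + x j ^ 2 → f x = ‖x‖ ^ 2)
    (hE : IsEllipsoid (Bd f)) (u : Euc n) (hu : ‖u‖ = 1) : f u = 1 := by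
  obtain ⟨A, hA⟩ := hE
  have hfr : {x | f x = 1} = A '' Metric.sphere 0 1 := by
    have h1 := A.toHomeomorphOfFiniteDimensional.image_frontier (Metric.closedBall (0 : Euc n) 1)
    rw [frontier_closedBall (0 : Euc n) (one_ne_zero)] at h1
    rw [← h.frontier_body, hA]
    exact h1.symm
  have hmem : ∀ x, f x = 1 ↔ ‖A.symm x‖ = 1 := by
    intro x
    have : f x = 1 ↔ x ∈ A '' Metric.sphere 0 1 := by
      rw [← hfr]
      rfl
    rw [this]
    constructor
    · rintro ⟨u, hu, rfl⟩
      rw [AffineEquiv.symm_apply_apply]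
      simpa using hu
    · intro hx
      exact ⟨A.symm x, by simpa using hx, by rw [AffineEquiv.apply_symm_apply]⟩
  -- a unit vector in the plane orthogonal to `u`
  obtain ⟨w, hw, hwu, hwij⟩ : ∃ w : Euc n, ‖w‖ = 1 ∧ ⟪w, u⟫ = 0 ∧ w i ^ 2 + w j ^ 2 = 1 := by
    by_cases h0 : u i ^ 2 + u j ^ 2 = 0
    · have hui : u i = 0 := by nlinarith [sq_nonneg (u i), sq_nonneg (u j)]
      refine ⟨EuclideanSpace.single i (1 : ℝ), by simp, ?_, ?_⟩
      · rw [EuclideanSpace.inner_single_left]
        simp [hui]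
      · simp [hij.symm]
    · have hpos : 0 < u i ^ 2 + u j ^ 2 := lt_of_le_of_ne (by positivity) (Ne.symm h0)
      set ρ := Real.sqrt (u i ^ 2 + u j ^ 2) with hρ
      have hρ0 : 0 < ρ := Real.sqrt_pos.2 hpos
      have hρ2 : ρ ^ 2 = u i ^ 2 + u j ^ 2 := Real.sq_sqrt hpos.le
      refine ⟨ρ⁻¹ • (EuclideanSpace.single i (-u j) + EuclideanSpace.single j (u i)), ?_, ?_, ?_⟩
      · have h1 : ‖(EuclideanSpace.single i (-u j) + EuclideanSpace.single j (u i) : Euc n)‖ ^ 2 =
            ρ ^ 2 := by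
          rw [norm_add_sq_real, EuclideanSpace.inner_single_left, hρ2]
          simp [hij.symm]
          ring
        have h2 := (sq_eq_sq₀ (norm_nonneg _) hρ0.le).1 h1
        rw [norm_smul, h2, norm_inv, Real.norm_eq_abs, abs_of_pos hρ0, inv_mul_cancel₀ hρ0.ne']
      · rw [real_inner_smul_left, inner_add_left, EuclideanSpace.inner_single_left,
          EuclideanSpace.inner_single_left]
        simp
        right
        ring
      · simp [hij, hij.symm]
        field_simp
        linarith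
  -- the great circle through `w` and `u`
  set γ : ℝ → Euc n := fun t => Real.cos t • w + Real.sin t • u with hγ
  have hγn : ∀ t, ‖γ t‖ ^ 2 = 1 := by
    intro t
    rw [hγ]
    simp only
    rw [norm_add_sq_real, norm_smul, norm_smul, real_inner_smul_left, real_inner_smul_right, hwu,
      hw, hu, Real.norm_eq_abs, Real.norm_eq_abs, mul_one, mul_one, sq_abs, sq_abs]
    have := Real.sin_sq_add_cos_sq t
    linarith
  have hγc : Continuous γ := by
    rw [hγ]
    fun_prop
  have hnear : ∀ᶠ t in 𝓝 (0 : ℝ), c ^ 2 ≤ (γ t) i ^ 2 + (γ t) j ^ 2 := by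
    have hcont : Continuous fun t => (γ t) i ^ 2 + (γ t) j ^ 2 := by fun_prop
    have h0 : (γ 0) i ^ 2 + (γ 0) j ^ 2 = 1 := by
      rw [hγ]
      simpa using hwij
    have : ∀ᶠ t in 𝓝 (0 : ℝ), c ^ 2 < (γ t) i ^ 2 + (γ t) j ^ 2 :=
      (hcont.tendsto 0).eventually (lt_mem_nhds (by rw [h0]; nlinarith))
    exact this.mono fun t ht => ht.le
  have hF : ∀ᶠ t in 𝓝 (0 : ℝ), ‖A.symm (γ t)‖ ^ 2 = 1 := by
    filter_upwards [hnear] with t ht
    rw [(hmem (γ t)).1 (by rw [hfar _ ht, hγn t]), one_pow]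
  have hcd : ContDiff ℝ ω fun t : ℝ => ‖A.symm (γ t)‖ ^ 2 := by
    have hb : ∀ x, A.symm x = A.symm.linear x + A.symm 0 := by
      intro x
      have := A.symm.map_vadd 0 x
      simpa [vadd_eq_add] using this
    have e : (fun t : ℝ => ‖A.symm (γ t)‖ ^ 2) = fun t : ℝ =>
        ‖Real.cos t • A.symm.linear w + Real.sin t • A.symm.linear u + A.symm 0‖ ^ 2 := by
      ext t
      rw [hb, hγ]
      simp only
      rw [map_add, map_smul, map_smul]
    rw [e]
    apply ContDiff.norm_sq ℝ
    have h1 : ContDiff ℝ ω Real.cos := Real.contDiff_cos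
    have h2 : ContDiff ℝ ω Real.sin := Real.contDiff_sin
    exact ((h1.smul contDiff_const).add (h2.smul contDiff_const)).add contDiff_const
  have han : AnalyticOnNhd ℝ (fun t : ℝ => ‖A.symm (γ t)‖ ^ 2) univ :=
    contDiff_omega_iff_analyticOnNhd.1 hcd
  have hall := han.eq_of_eventuallyEq (g := fun _ => (1 : ℝ)) (z₀ := 0) analyticOnNhd_const hF
  have h2 := congrFun hall (Real.pi / 2)
  simp only [hγ, Real.cos_pi_div_two, Real.sin_pi_div_two, zero_smul, one_smul, zero_add] at h2
  rw [hmem]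
  nlinarith [norm_nonneg (A.symm u)]

end Ang

end Pool.Agent.T6.H45.Inner2
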