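import Pool.Agent.T6.H45.Inner2

/-!
# Local perturbations of the unit ball
-/

set_option autoImplicit false

open Set Filter Topology
open scoped RealInnerProductSpace ContDiff

namespace Pool.Agent.T6.H45.Inner2

open Pool.Agent.H703R3.MB

variable {n : ℕ}

theorem taylor1 {φ : Euc n → ℝ} (h1 : ContDiff ℝ ∞ φ) (h2 : HasCompactSupport φ) :
    ∃ L : ℝ, 0 ≤ L ∧ ∀ x y : Euc n,
      |φ y - φ x - ⟪gradient φ x, y - x⟫| ≤ L * ‖y - x‖ ^ 2 := by
  have hc : HasCompactSupport (fderiv ℝ φ) := h2.fderiv ℝ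
  have hd : ContDiff ℝ ∞ (fderiv ℝ φ) := h1.fderiv_right (by simp)
  obtain ⟨L, hL⟩ := hd.lipschitzWith_of_hasCompactSupport hc (by simp)
  refine ⟨L, L.2, fun x y => ?_⟩
  have hdiff : Differentiable ℝ φ := h1.differentiable (by simp)
  have h3 := (convex_closedBall x ‖y - x‖).norm_image_sub_le_of_norm_hasFDerivWithin_le'
    (f := φ) (f' := fderiv ℝ φ) (φ := fderiv ℝ φ x) (C := L * ‖y - x‖) (x := x) (y := y)
    (fun z _ => hdiff.differentiableAt.hasFDerivAt.hasFDerivWithinAt)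
    (fun z hz => by
      have h4 := hL.dist_le_mul z x
      rw [dist_eq_norm, dist_eq_norm] at h4
      refine h4.trans (mul_le_mul_of_nonneg_left ?_ L.2)
      rw [← dist_eq_norm]
      exact hz)
    (Metric.mem_closedBall_self (norm_nonneg _)) (by
      rw [Metric.mem_closedBall, dist_eq_norm])
  have h5 : fderiv ℝ φ x (y - x) = ⟪gradient φ x, y - x⟫ := by
    have h6 := (hdiff.differentiableAt (x := x)).hasGradientAt
    rw [hasGradientAt_iff_hasFDerivAt] at h6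
    rw [h6.fderiv, InnerProductSpace.toDual_apply_apply]
  rw [h5, Real.norm_eq_abs] at h3
  calc _ ≤ L * ‖y - x‖ * ‖y - x‖ := h3
    _ = L * ‖y - x‖ ^ 2 := by ring

theorem bound1 {φ : Euc n → ℝ} (h1 : ContDiff ℝ ∞ φ) (h2 : HasCompactSupport φ) :
    ∃ B : ℝ, 0 ≤ B ∧ ∀ x, |φ x| ≤ B := by
  obtain ⟨B, hB⟩ := h1.continuous.bounded_above_of_compact_support h2
  exact ⟨B, (norm_nonneg _).trans (hB 0), fun x => by simpa using hB x⟩

/-- the perturbed function -/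
noncomputable def pf (φ : Euc n → ℝ) (ε : ℝ) (x : Euc n) : ℝ := ‖x‖ ^ 2 + ε * φ x

/-- its gradient -/
noncomputable def pg (φ : Euc n → ℝ) (ε : ℝ) (x : Euc n) : Euc n :=
  (2 : ℝ) • x + ε • gradient φ x

theorem nice_pf {φ : Euc n → ℝ} (h1 : ContDiff ℝ ∞ φ) (h2 : HasCompactSupport φ) :
    ∃ ε₀ : ℝ, 0 < ε₀ ∧ ∀ ε : ℝ, |ε| ≤ ε₀ → Nice (pf φ ε) (pg φ ε) := by
  obtain ⟨L, hL0, hL⟩ := taylor1 h1 h2
  obtain ⟨B, hB0, hB⟩ := bound1 h1 h2
  have hpos : 0 < 2 * (L + B + 1) := by positivity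
  refine ⟨1 / (2 * (L + B + 1)), by positivity, fun ε hε => ?_⟩
  have hε1 : |ε| * (2 * (L + B + 1)) ≤ 1 := by
    rw [le_div_iff₀ hpos] at hε
    exact hε
  have hεL : |ε| * L ≤ 1 / 2 := by nlinarith [abs_nonneg ε, mul_nonneg (abs_nonneg ε) hB0]
  have hεB : |ε| * B ≤ 1 / 2 := by nlinarith [abs_nonneg ε, mul_nonneg (abs_nonneg ε) hL0]
  have hφ : ∀ x, |ε * φ x| ≤ 1 / 2 := fun x => by
    rw [abs_mul]
    exact (mul_le_mul_of_nonneg_left (hB x) (abs_nonneg ε)).trans hεB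
  have hdiff : Differentiable ℝ φ := h1.differentiable (by simp)
  have hkey : ∀ x y : Euc n, pf φ ε y - (pf φ ε x + ⟪pg φ ε x, y - x⟫) =
      ‖y - x‖ ^ 2 + ε * (φ y - φ x - ⟪gradient φ x, y - x⟫) := by
    intro x y
    unfold pf pg
    have e : ‖y‖ ^ 2 = ‖x‖ ^ 2 + 2 * ⟪x, y - x⟫ + ‖y - x‖ ^ 2 := by
      rw [← norm_add_sq_real, add_sub_cancel]
    rw [inner_add_left, real_inner_smul_left, real_inner_smul_left, e]
    ring
  have hkey2 : ∀ x y : Euc n, |ε * (φ y - φ x - ⟪gradient φ x, y - x⟫)| ≤ ‖y - x‖ ^ 2 / 2 := by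
    intro x y
    rw [abs_mul]
    have h3 := mul_le_mul_of_nonneg_left (hL x y) (abs_nonneg ε)
    have h4 : |ε| * L * ‖y - x‖ ^ 2 ≤ 1 / 2 * ‖y - x‖ ^ 2 :=
      mul_le_mul_of_nonneg_right hεL (sq_nonneg _)
    linarith
  constructor
  · unfold pf
    have h3 : ContDiff ℝ ∞ fun x : Euc n => ‖x‖ ^ 2 := contDiff_norm_sq ℝ
    exact h3.add (contDiff_const.mul h1)
  · intro x
    rw [hasGradientAt_iff_hasFDerivAt]
    have h3 : HasFDerivAt (fun x : Euc n => ‖x‖ ^ 2) (2 • (innerSL ℝ x)) x :=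
      (hasStrictFDerivAt_norm_sq x).hasFDerivAt
    have h4 := (hdiff.differentiableAt (x := x)).hasGradientAt
    rw [hasGradientAt_iff_hasFDerivAt] at h4
    have h5 := h3.add (h4.const_mul ε)
    refine h5.congr_fderiv ?_
    ext w
    unfold pg
    simp [InnerProductSpace.toDual_apply_apply, inner_add_left, real_inner_smul_left]
  · intro x y
    have h3 := hkey x y
    have h4 := (abs_le.1 (hkey2 x y)).1
    linarith
  · intro x y
    have h3 := hkey x y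
    have h4 := (abs_le.1 (hkey2 x y)).2
    have h5 := sq_nonneg ‖y - x‖
    linarith
  · unfold pf
    have h3 := (abs_le.1 (hφ 0)).2
    rw [norm_zero]
    linarith
  · intro x
    unfold pf
    have h3 := (abs_le.1 (hφ x)).1
    linarith

theorem pf_far {φ : Euc n → ℝ} (ε : ℝ) {x : Euc n}
    (hx : x ∉ tsupport φ) : pf φ ε x = ‖x‖ ^ 2 ∧ pg φ ε x = (2 : ℝ) • x := by
  have h2 : φ x = 0 := image_eq_zero_of_notMem_tsupport hx
  have h3 : gradient φ x = 0 := by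
    unfold gradient
    have h4 : φ =ᶠ[𝓝 x] fun _ => 0 := notMem_tsupport_iff_eventuallyEq.1 hx
    rw [h4.fderiv_eq]
    simp
  unfold pf pg
  rw [h2, h3]
  simp

end Pool.Agent.T6.H45.Inner2
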